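import Mathlib

/-!
Tools on free groups: letter counts in powers, first letters of products, universal words.
-/

set_option autoImplicit false
set_option linter.unusedSectionVars false

namespace Pool.Agent.V1119.PP

open FreeGroup

theorem redSub {α : Type*} {l m s t : List (α × Bool)} (h : IsReduced m)
    (e : s ++ l ++ t = m) : IsReduced l := by
  subst e
  unfold FreeGroup.IsReduced at *
  rw [List.isChain_append] at h
  have h1 := h.1
  rw [List.isChain_append] at h1
  exact h1.2.1

section
variable {α : Type*} [DecidableEq α]

/-- number of occurrences of `a⁻¹` in the reduced word -/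
def neg (a : α) (g : FreeGroup α) : ℕ := g.toWord.count (a, false)

theorem neg_mul_le (a : α) (g h : FreeGroup α) : neg a (g * h) ≤ neg a g + neg a h := by
  unfold neg
  have := (toWord_mul_sublist g h).count_le (a, false)
  rwa [List.count_append] at this

theorem neg_le_norm (a : α) (g : FreeGroup α) : neg a g ≤ norm g := by
  unfold neg FreeGroup.norm
  exact List.count_le_length

theorem neg_pow_le (a : α) (g : FreeGroup α) (n : ℕ) : neg a (g ^ n) ≤ n * neg a g := by
  induction n with
  | zero => simp [neg]
  | succ n ih =>
    rw [pow_succ]
    calc _ ≤ neg a (g ^ n) + neg a g := neg_mul_le _ _ _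
      _ ≤ n * neg a g + neg a g := by omega
      _ = _ := by ring

theorem neg_conj_pow_le (a : α) (k v : FreeGroup α) (hv : neg a v = 0) (n : ℕ) :
    neg a ((k * v * k⁻¹) ^ n) ≤ 2 * norm k := by
  rw [conj_pow]
  calc _ ≤ neg a (k * v ^ n) + neg a k⁻¹ := neg_mul_le _ _ _
    _ ≤ neg a k + neg a (v ^ n) + neg a k⁻¹ := by
      have := neg_mul_le a k (v ^ n)
      omega
    _ ≤ norm k + 0 + norm k⁻¹ := by
      have h1 := neg_le_norm a k
      have h2 := neg_le_norm a k⁻¹
      have h3 := neg_pow_le a v n
      rw [hv] at h3
      omega
    _ = _ := by rw [norm_inv_eq]; ring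

theorem le_neg_pow (a : α) (g : FreeGroup α)
    (h1 : (g⁻¹).toWord.head? = some (a, true)) (h2 : g.toWord.head? ≠ some (a, true)) (n : ℕ) :
    n ≤ neg a (g ^ n) := by
  have hlast : g.toWord.getLast? = some (a, false) := by
    rw [toWord_inv, invRev, List.head?_reverse, List.getLast?_map] at h1
    rcases h : g.toWord.getLast? with _ | x
    · simp [h] at h1
    · rw [h] at h1
      simp only [Option.map_some, Option.some.injEq, Prod.mk.injEq, Bool.not_eq_true'] at h1
      rw [← h1.1, ← h1.2]
  have hc : IsCyclicallyReduced g.toWord := by
    refine ⟨isReduced_toWord, fun x hx y hy hxy => ?_⟩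
    rw [hlast] at hx
    simp only [Option.mem_def, Option.some.injEq] at hx hy
    subst hx
    rw [hy] at h2
    by_contra hne
    apply h2
    rcases y with ⟨y1, y2⟩
    simp only at hxy hne
    subst hxy
    cases y2 <;> simp_all
  have hmem : (a, false) ∈ g.toWord := List.mem_of_getLast? hlast
  unfold neg
  rw [toWord_pow, (hc.flatten_replicate n).isReduced.reduce_eq, List.count_flatten]
  simp only [List.map_replicate, List.sum_replicate, smul_eq_mul]
  have : 1 ≤ g.toWord.count (a, false) := List.one_le_count_iff.mpr hmem
  nlinarith

theorem no_conj (a : α) (k v g : FreeGroup α) (hv : neg a v = 0) (hg : g = k * v * k⁻¹)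
    (h1 : (g⁻¹).toWord.head? = some (a, true)) (h2 : g.toWord.head? ≠ some (a, true)) :
    False := by
  have A := le_neg_pow a g h1 h2 (2 * norm k + 1)
  have B := neg_conj_pow_le a k v hv (2 * norm k + 1)
  rw [← hg] at B
  omega

/-- Multiplying by one letter. -/
theorem toWord_mul_letter (g : FreeGroup α) (x : α × Bool) :
    ((g * mk [x]).toWord = g.toWord ++ [x]) ∨
      (g.toWord = (g * mk [x]).toWord ++ [(x.1, !x.2)]) := by
  by_cases h : g.toWord.getLast? = some (x.1, !x.2)
  · right
    obtain ⟨L, hL⟩ : ∃ L, g.toWord = L ++ [(x.1, !x.2)] := by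
      rw [List.getLast?_eq_some_iff] at h
      exact h
    have hred : IsReduced L := by
      have := isReduced_toWord (x := g)
      rw [hL] at this
      exact (redSub this (s := []) (t := [(x.1, !x.2)]) (by simp))
    have hg : g * mk [x] = mk L := by
      rw [← mk_toWord (x := g), hL, mul_mk]
      apply Quot.sound
      simpa using (Red.Step.not (L₁ := L) (L₂ := []) (x := x.1) (b := !x.2))
    rw [hL, hg, toWord_mk, hred.reduce_eq]
  · left
    have hred : IsReduced (g.toWord ++ [x]) := by
      have h1 := isReduced_toWord (x := g)
      unfold FreeGroup.IsReduced at h1 ⊢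
      rw [List.isChain_append]
      refine ⟨h1, by simp, fun y hy z hz hyz => ?_⟩
      simp only [List.head?_cons, Option.mem_def, Option.some.injEq] at hz hy
      subst hz
      by_contra hne
      apply h
      rw [hy]
      rcases y with ⟨y1, y2⟩
      rcases x with ⟨x1, x2⟩
      simp only at hyz hne ⊢
      subst hyz
      cases y2 <;> cases x2 <;> simp_all
    conv_lhs => rw [← mk_toWord (x := g)]
    rw [mul_mk, toWord_mk, hred.reduce_eq]

theorem head_mul (g h : FreeGroup α) (hn : norm h < norm g) :
    (g * h).toWord.head? = g.toWord.head? := by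
  obtain ⟨l, hl, rfl⟩ : ∃ l : List (α × Bool), l.length = norm h ∧ mk l = h :=
    ⟨h.toWord, rfl, mk_toWord⟩
  rw [← hl] at hn
  clear hl
  induction l generalizing g with
  | nil => simp [← one_eq_mk]
  | cons x l ih =>
    have e : g * mk (x :: l) = (g * mk [x]) * mk l := by
      rw [mul_assoc, mul_mk]; rfl
    rw [e]
    simp only [List.length_cons] at hn
    rcases toWord_mul_letter g x with h1 | h1
    · rw [ih, h1, List.head?_append]
      · have : g.toWord ≠ [] := by
          intro h0
          simp [FreeGroup.norm, h0] at hn
        obtain ⟨y, hy⟩ : ∃ y, g.toWord.head? = some y := by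
          rcases hh : g.toWord with _ | ⟨y, l'⟩
          · exact absurd hh this
          · exact ⟨y, rfl⟩
        simp [hy]
      · have : norm (g * mk [x]) = norm g + 1 := by simp [FreeGroup.norm, h1]
        omega
    · have h2 : norm g = norm (g * mk [x]) + 1 := by
        unfold FreeGroup.norm
        conv_lhs => rw [h1]
        simp
      rw [ih _ (by omega)]
      conv_rhs => rw [h1]
      rw [List.head?_append]
      have : (g * mk [x]).toWord ≠ [] := by
        intro h0
        simp [FreeGroup.norm, h0] at h2 hn
        omega
      obtain ⟨y, hy⟩ : ∃ y, (g * mk [x]).toWord.head? = some y := by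
        rcases hh : (g * mk [x]).toWord with _ | ⟨y, l'⟩
        · exact absurd hh this
        · exact ⟨y, rfl⟩
      simp [hy]

theorem norm_map_le (f : FreeGroup α →* FreeGroup α) (L : ℕ)
    (hL : ∀ x : α × Bool, norm (f (mk [x])) ≤ L) (g : FreeGroup α) :
    norm (f g) ≤ L * norm g := by
  obtain ⟨l, hl, rfl⟩ : ∃ l : List (α × Bool), l.length = norm g ∧ mk l = g :=
    ⟨g.toWord, rfl, mk_toWord⟩
  rw [← hl]
  clear hl
  induction l with
  | nil => simp [← one_eq_mk]
  | cons x l ih =>
    have e : (mk (x :: l) : FreeGroup α) = mk [x] * mk l := by rw [mul_mk]; rfl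
    rw [e, _root_.map_mul]
    calc _ ≤ norm (f (mk [x])) + norm (f (mk l)) := norm_mul_le _ _
      _ ≤ L + L * l.length := by
        have := hL x
        omega
      _ = _ := by simp; ring

theorem norm_mk {l : List (α × Bool)} (h : IsReduced l) : norm (mk l) = l.length := by
  rw [FreeGroup.norm, toWord_mk, h.reduce_eq]

variable [Fintype α]

theorem exists_bound (f : FreeGroup α →* FreeGroup α) :
    ∃ L : ℕ, ∀ x : α × Bool, norm (f (mk [x])) ≤ L :=
  ⟨Finset.univ.sup (fun x : α × Bool => norm (f (mk [x]))),
    fun x => Finset.le_sup (f := fun x : α × Bool => norm (f (mk [x]))) (Finset.mem_univ x)⟩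

/-- `u` contains every reduced word of length two as a subword. -/
def Universal2 {α : Type*} (u : List (α × Bool)) : Prop :=
  ∀ x y : α × Bool, IsReduced [x, y] → [x, y] <:+: u

/-- existence of a universal word, when there are at least two generators -/
theorem exists_universal [Nontrivial α] : ∃ u : List (α × Bool), IsReduced u ∧ Universal2 u := by
  have key : ∀ S : List ((α × Bool) × (α × Bool)), ∃ u : List (α × Bool), IsReduced u ∧
      ∀ x ∈ S, IsReduced [x.1, x.2] → [x.1, x.2] <:+: u := by
    intro S
    induction S with
    | nil => exact ⟨[], IsReduced.nil, by simp⟩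
    | cons x S ih =>
      obtain ⟨u, hu, hS⟩ := ih
      by_cases hx : IsReduced [x.1, x.2]
      · -- choose a connecting word
        obtain ⟨m, hm⟩ : ∃ m : List (α × Bool), IsReduced (u ++ m ++ [x.1]) := by
          by_cases h : IsReduced (u ++ [x.1])
          · exact ⟨[], by simpa using h⟩
          · obtain ⟨b, hb⟩ := exists_ne x.1.1
            refine ⟨[(b, true)], ?_⟩
            unfold FreeGroup.IsReduced at *
            rw [List.isChain_append] at h ⊢
            have hlast : ∀ y ∈ u.getLast?, y.1 = x.1.1 := by
              intro y hy
              by_contra hne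
              apply h
              refine ⟨hu, by simp, fun y' hy' z hz hyz => ?_⟩
              exfalso
              have e1 : y' = y := by
                simp only [Option.mem_def] at hy hy'
                rw [hy] at hy'
                exact (Option.some.inj hy').symm
              have e2 : z = x.1 := by simpa using hz.symm
              subst e1 e2
              exact hne hyz
            refine ⟨?_, by simp, fun y hy z hz hyz => ?_⟩
            · rw [List.isChain_append]
              refine ⟨hu, by simp, fun y hy z hz hyz => ?_⟩
              exfalso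
              have e2 : z = (b, true) := by simpa using hz.symm
              subst e2
              exact hb (hyz.symm.trans (hlast y hy))
            · exfalso
              have e1 : y = (b, true) := by simpa using hy.symm
              have e2 : z = x.1 := by simpa using hz.symm
              subst e1 e2
              exact hb hyz
        refine ⟨u ++ m ++ [x.1] ++ [x.2], ?_, ?_⟩
        · exact IsReduced.append_overlap hm (by simpa using hx) (by simp)
        · intro y hy hyr
          rcases List.mem_cons.mp hy with rfl | hy
          · exact ⟨u ++ m, [], by simp⟩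
          · obtain ⟨s, t, hst⟩ := hS y hy hyr
            exact ⟨s, t ++ m ++ [x.1] ++ [x.2], by rw [← hst]; simp⟩
      · refine ⟨u, hu, fun y hy hyr => ?_⟩
        rcases List.mem_cons.mp hy with rfl | hy
        · exact absurd hyr hx
        · exact hS y hy hyr
  obtain ⟨u, hu, h⟩ := key (Finset.univ : Finset ((α × Bool) × (α × Bool))).toList
  exact ⟨u, hu, fun x y hxy => h (x, y) (by simp) hxy⟩

end

end Pool.Agent.V1119.PP
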