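import Mathlib
import Pool.Agent.V1119.PP.Base

/-!
# Half-spaces in the Cayley tree of a free group
-/

set_option autoImplicit false
set_option linter.unusedSectionVars false

namespace Pool.Agent.V1119.PP

open FreeGroup Filter

section
variable {ι : Type*} [DecidableEq ι]

/-- inverse letter -/
def fl (s : ι × Bool) : ι × Bool := (s.1, !s.2)

@[simp] theorem fl_fl (s : ι × Bool) : fl (fl s) = s := by simp [fl]
theorem fl_inj {s t : ι × Bool} (h : fl s = fl t) : s = t := by
  rw [← fl_fl s, h, fl_fl]
theorem fl_ne (s : ι × Bool) : fl s ≠ s := by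
  rcases s with ⟨i, b⟩
  cases b <;> simp [fl]

/-- the group element of a letter -/
def el (s : ι × Bool) : FreeGroup ι := mk [s]

theorem el_fl (s : ι × Bool) : el (fl s) = (el s)⁻¹ := by
  simp [el, fl, inv_mk, invRev]

/-- first letter -/
def hd (z : FreeGroup ι) : Option (ι × Bool) := z.toWord.head?

@[simp] theorem hd_one : hd (1 : FreeGroup ι) = none := by simp [hd]

theorem hd_eq_none {z : FreeGroup ι} (h : hd z = none) : z = 1 := by
  unfold hd at h
  rw [List.head?_eq_none_iff, toWord_eq_nil_iff] at h
  exact h

theorem toWord_cons {s : ι × Bool} {z : FreeGroup ι} (h : hd z ≠ some (fl s)) :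
    (el s * z).toWord = s :: z.toWord := by
  have hred : IsReduced (s :: z.toWord) := by
    have h1 := isReduced_toWord (x := z)
    unfold hd at h
    rcases hz : z.toWord with _ | ⟨y, l⟩
    · simp [FreeGroup.IsReduced]
    · rw [hz] at h h1
      unfold FreeGroup.IsReduced at *
      rw [List.isChain_cons_cons]
      refine ⟨fun hxy => ?_, h1⟩
      by_contra hne
      apply h
      simp only [List.head?_cons, Option.some.injEq, fl]
      rcases s with ⟨s1, s2⟩
      rcases y with ⟨y1, y2⟩
      simp only at hxy hne ⊢
      subst hxy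
      cases s2 <;> cases y2 <;> simp_all
  have e : el s * z = mk (s :: z.toWord) := by
    conv_lhs => rw [← mk_toWord (x := z)]
    rw [el, mul_mk]
    rfl
  rw [e, toWord_mk, hred.reduce_eq]

theorem hd_cons_iff (s : ι × Bool) (z : FreeGroup ι) :
    hd (el s * z) = some s ↔ hd z ≠ some (fl s) := by
  constructor
  · intro h h2
    -- `z = fl s · z'`
    have h3 : hd (el s * z) ≠ some (fl (fl s)) → (el (fl s) * (el s * z)).toWord =
        fl s :: (el s * z).toWord := toWord_cons
    unfold hd at h2
    rcases hz : z.toWord with _ | ⟨y, l⟩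
    · rw [hz] at h2; simp at h2
    · rw [hz] at h2
      simp only [List.head?_cons, Option.some.injEq] at h2
      subst h2
      have hr := isReduced_toWord (x := z)
      rw [hz] at hr
      have hl : IsReduced l := by
        unfold FreeGroup.IsReduced at *
        exact hr.tail
      have e : el s * z = mk l := by
        rw [← mk_toWord (x := z), hz, el, mul_mk]
        apply Quot.sound
        simpa [fl] using (Red.Step.not (L₁ := []) (L₂ := l) (x := s.1) (b := s.2))
      unfold hd at h
      rw [e, toWord_mk, hl.reduce_eq] at h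
      rcases l with _ | ⟨y', l⟩
      · simp at h
      · simp only [List.head?_cons, Option.some.injEq] at h
        subst h
        unfold FreeGroup.IsReduced at hr
        have := (List.isChain_cons_cons.mp hr).1 rfl
        simp [fl] at this
  · intro h
    unfold hd
    rw [toWord_cons h]
    rfl

/-- half-space at the vertex `p` in the direction `s` -/
def Hs (p : FreeGroup ι) (s : ι × Bool) : Set (FreeGroup ι) := {z | hd (p⁻¹ * z) = some s}

theorem mem_Hs {p z : FreeGroup ι} {s : ι × Bool} : z ∈ Hs p s ↔ hd (p⁻¹ * z) = some s := Iff.rfl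

theorem mem_Hs_mul {h p z : FreeGroup ι} {s : ι × Bool} :
    z ∈ Hs (h * p) s ↔ h⁻¹ * z ∈ Hs p s := by
  rw [mem_Hs, mem_Hs, mul_inv_rev, mul_assoc]

theorem mem_Hs_flip {p z : FreeGroup ι} {s : ι × Bool} :
    z ∈ Hs p s ↔ z ∉ Hs (p * el s) (fl s) := by
  rw [mem_Hs, mem_Hs, mul_inv_rev, ← el_fl, mul_assoc, hd_cons_iff, fl_fl, not_not]

theorem Hs_compl {p : FreeGroup ι} {s : ι × Bool} : (Hs p s)ᶜ = Hs (p * el s) (fl s) := by
  ext z
  rw [Set.mem_compl_iff, mem_Hs_flip, not_not]

theorem Hs_sub {p : FreeGroup ι} {s s' : ι × Bool} (h : s' ≠ fl s) :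
    Hs (p * el s) s' ⊆ Hs p s := by
  intro z hz
  rw [mem_Hs_flip]
  intro hz'
  rw [mem_Hs] at hz hz'
  rw [hz] at hz'
  exact h (Option.some.inj hz')

theorem Hs_disj {p : FreeGroup ι} {s s' : ι × Bool} (h : s ≠ s') : Disjoint (Hs p s) (Hs p s') := by
  rw [Set.disjoint_left]
  intro z hz hz'
  rw [mem_Hs] at hz hz'
  rw [hz] at hz'
  exact h (Option.some.inj hz')

theorem exists_dir {p z : FreeGroup ι} (h : z ≠ p) : ∃ s, z ∈ Hs p s := by
  rcases hh : hd (p⁻¹ * z) with _ | s
  · exact absurd (hd_eq_none hh) (by
      intro h1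
      exact h (inv_mul_eq_one.mp h1).symm)
  · exact ⟨s, hh⟩

theorem self_not_mem {p : FreeGroup ι} {s : ι × Bool} : p ∉ Hs p s := by
  rw [mem_Hs]; simp

theorem toWord_el_pow (s : ι × Bool) (n : ℕ) : (el s ^ n).toWord = List.replicate n s := by
  rw [el, pow_mk, toWord_mk]
  have : (List.replicate n [s]).flatten = List.replicate n s := by
    induction n with
    | zero => rfl
    | succ n ih => rw [List.replicate_succ, List.flatten_cons, ih, List.replicate_succ]; rfl
  rw [this]
  apply IsReduced.reduce_eq
  unfold FreeGroup.IsReduced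
  exact List.isChain_replicate_of_rel _ (fun _ => rfl)

theorem Hs_infinite (p : FreeGroup ι) (s : ι × Bool) : (Hs p s).Infinite := by
  apply Set.infinite_of_injective_forall_mem (f := fun n : ℕ => p * el s ^ (n + 1))
  · intro n m h
    have h1 := mul_left_cancel h
    have h2 := congrArg (fun z : FreeGroup ι => z.toWord.length) h1
    simp only [toWord_el_pow, List.length_replicate] at h2
    omega
  · intro n
    rw [mem_Hs, inv_mul_cancel_left, hd, toWord_el_pow]
    rfl

/-! ### ping-pong -/

theorem pingpong {G : Type*} [Group G] (α : FreeGroup ι →* G) (T : ι × Bool → Set G)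
    (h1 : ∀ s, (1 : G) ∉ T s) (hd' : ∀ s s', s ≠ s' → Disjoint (T s) (T s'))
    (hc : ∀ s z, z ∈ T s ↔ (α (el s))⁻¹ * z ∉ T (fl s)) (z : FreeGroup ι) (s : ι × Bool) :
    α z ∈ T s ↔ hd z = some s := by
  have key : ∀ (n : ℕ) (z : FreeGroup ι) (s : ι × Bool), z.toWord.length ≤ n → hd z = some s →
      α z ∈ T s := by
    intro n
    induction n with
    | zero =>
      intro z s hn hz
      have : z = 1 := by
        rw [← toWord_eq_nil_iff]
        exact List.length_eq_zero_iff.mp (by omega)
      subst this
      simp at hz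
    | succ n ih =>
      intro z s hn hz
      obtain ⟨l, hl⟩ : ∃ l, z.toWord = s :: l := by
        unfold hd at hz
        rcases hw : z.toWord with _ | ⟨y, l⟩
        · rw [hw] at hz; simp at hz
        · rw [hw] at hz
          simp only [List.head?_cons, Option.some.injEq] at hz
          exact ⟨l, by rw [hz]⟩
      have hr := isReduced_toWord (x := z)
      rw [hl] at hr
      have hlr : IsReduced l := by
        unfold FreeGroup.IsReduced at *
        exact hr.tail
      have e : z = el s * mk l := by
        rw [← mk_toWord (x := z), hl, el, mul_mk]; rfl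
      rw [e, _root_.map_mul, hc, inv_mul_cancel_left]
      intro hcon
      rcases hh : hd (mk l) with _ | y
      · have := hd_eq_none hh
        rw [this, _root_.map_one] at hcon
        exact h1 _ hcon
      · have h2 := ih (mk l) y (by
          rw [toWord_mk, hlr.reduce_eq]
          rw [hl] at hn
          simpa using hn) hh
        by_cases hy : y = fl s
        · subst hy
          unfold hd at hh
          rw [toWord_mk, hlr.reduce_eq] at hh
          rcases l with _ | ⟨y', l⟩
          · simp at hh
          · simp only [List.head?_cons, Option.some.injEq] at hh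
            subst hh
            unfold FreeGroup.IsReduced at hr
            have := (List.isChain_cons_cons.mp hr).1 rfl
            simp [fl] at this
        · exact Set.disjoint_left.mp (hd' _ _ hy) h2 hcon
  constructor
  · intro h
    rcases hh : hd z with _ | y
    · have := hd_eq_none hh
      subst this
      rw [_root_.map_one] at h
      exact absurd h (h1 s)
    · by_cases hy : y = s
      · rw [hy]
      · exact absurd h (Set.disjoint_left.mp (hd' _ _ hy) (key _ z y le_rfl hh))
  · exact key _ z s le_rfl

/-! ### almost invariant sets -/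

/-- almost invariance under right multiplication -/
def AI (B : Set (FreeGroup ι)) : Prop :=
  ∀ x : FreeGroup ι, {z | ¬ (z ∈ B ↔ z * x ∈ B)}.Finite

theorem finite_ball [Finite ι] (n : ℕ) : {z : FreeGroup ι | z.toWord.length ≤ n}.Finite := by
  have h1 : {l : List (ι × Bool) | l.length ≤ n}.Finite := List.finite_length_le _ n
  exact (h1.preimage (toWord_injective.injOn)).subset (fun z hz => hz)

theorem finite_bounded {S : Set (FreeGroup ι)} (h : S.Finite) :
    ∃ N, ∀ z ∈ S, z.toWord.length ≤ N := by
  obtain ⟨N, hN⟩ := (h.image (fun z : FreeGroup ι => z.toWord.length)).bddAbove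
  exact ⟨N, fun z hz => hN ⟨z, hz, rfl⟩⟩

theorem AI.far [Finite ι] {B : Set (FreeGroup ι)} (h : AI B) : ∃ N, ∀ (z : FreeGroup ι)
    (s : ι × Bool), N ≤ z.toWord.length → (z ∈ B ↔ z * el s ∈ B) := by
  have h1 : (⋃ s : ι × Bool, {z | ¬ (z ∈ B ↔ z * el s ∈ B)}).Finite :=
    Set.finite_iUnion (fun s => h (el s))
  obtain ⟨N, hN⟩ := finite_bounded h1
  refine ⟨N + 1, fun z s hz => ?_⟩
  by_contra hcon
  have := hN z (Set.mem_iUnion.mpr ⟨s, hcon⟩)
  omega

/-- directions far from the origin are pure -/
theorem AI.pure [Finite ι] {B : Set (FreeGroup ι)} (h : AI B) : ∃ N, ∀ (p : FreeGroup ι)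
    (s : ι × Bool), N ≤ p.toWord.length → (p * el s).toWord = p.toWord ++ [s] →
      (∀ z ∈ Hs p s, (z ∈ B ↔ p ∈ B)) := by
  obtain ⟨N, hN⟩ := h.far
  refine ⟨N, fun p s hp hs z hz => ?_⟩
  -- the word of `z` is the concatenation
  have hps : IsReduced (p.toWord ++ [s]) := by
    rw [← hs]; exact isReduced_toWord
  have hz' : ∃ l, (p⁻¹ * z).toWord = s :: l := by
    rw [mem_Hs] at hz
    unfold hd at hz
    rcases hw : (p⁻¹ * z).toWord with _ | ⟨y, l⟩
    · rw [hw] at hz; simp at hz
    · rw [hw] at hz
      simp only [List.head?_cons, Option.some.injEq] at hz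
      exact ⟨l, by rw [hz]⟩
  obtain ⟨l, hl⟩ := hz'
  have hred : IsReduced (p.toWord ++ (s :: l)) := by
    have h1 := isReduced_toWord (x := p⁻¹ * z)
    rw [hl] at h1
    have := IsReduced.append_overlap (L₁ := p.toWord) (L₂ := [s]) (L₃ := l) hps h1 (by simp)
    simpa using this
  have hzz : z = mk (p.toWord ++ (s :: l)) := by
    rw [← mul_mk, mk_toWord, ← hl, mk_toWord, mul_inv_cancel_left]
  have key : ∀ l : List (ι × Bool), IsReduced (p.toWord ++ l) →
      (mk (p.toWord ++ l) ∈ B ↔ p ∈ B) := by
    intro l
    induction l using List.reverseRecOn with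
    | nil => intro _; rw [List.append_nil, mk_toWord]
    | append_singleton l x ih =>
      intro hr
      have hr' : IsReduced (p.toWord ++ l) := redSub hr (s := []) (t := [x]) (by simp)
      rw [← ih hr', ← List.append_assoc, ← mul_mk]
      have h2 := hN (mk (p.toWord ++ l)) x (by
        rw [toWord_mk, hr'.reduce_eq, List.length_append]; omega)
      exact h2.symm
  rw [hzz]
  exact key _ hred

/-! ### nested sets -/

/-- `B` is nested with all its translates -/
def Nested (B : Set (FreeGroup ι)) : Prop :=
  ∀ h : FreeGroup ι, (∀ z, h⁻¹ * z ∈ B → z ∈ B) ∨ (∀ z, z ∈ B → h⁻¹ * z ∈ B) ∨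
    (∀ z, z ∈ B → h⁻¹ * z ∉ B) ∨ (∀ z, z ∈ B ∨ h⁻¹ * z ∈ B)

theorem Nested.compl {B : Set (FreeGroup ι)} (h : Nested B) : Nested Bᶜ := by
  intro g
  rcases h g with h1 | h1 | h1 | h1
  · exact Or.inr (Or.inl fun z hz hz' => hz (h1 z hz'))
  · exact Or.inl fun z hz hz' => hz (h1 z hz')
  · refine Or.inr (Or.inr (Or.inr fun z => ?_))
    by_cases hz : z ∈ B
    · exact Or.inr (h1 z hz)
    · exact Or.inl hz
  · refine Or.inr (Or.inr (Or.inl fun z hz hz' => ?_))
    rcases h1 z with h2 | h2
    · exact hz h2
    · exact hz' h2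

theorem common {α : Type*} (X Y : List α) : ∃ C X' Y', X = C ++ X' ∧ Y = C ++ Y' ∧
    ∀ a ∈ X'.head?, ∀ b ∈ Y'.head?, a ≠ b := by
  induction X generalizing Y with
  | nil => exact ⟨[], [], Y, rfl, rfl, by simp⟩
  | cons a X ih =>
    rcases Y with _ | ⟨b, Y⟩
    · exact ⟨[], a :: X, [], rfl, rfl, by simp⟩
    · by_cases hab : a = b
      · subst hab
        obtain ⟨C, X', Y', rfl, rfl, h⟩ := ih Y
        exact ⟨a :: C, X', Y', rfl, rfl, h⟩
      · exact ⟨[], a :: X, b :: Y, rfl, rfl, by simpa using hab⟩

theorem red_right {α : Type*} {l m : List (α × Bool)} (h : FreeGroup.IsReduced (l ++ m)) :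
    FreeGroup.IsReduced m := by
  unfold FreeGroup.IsReduced at *
  rw [List.isChain_append] at h
  exact h.2.1

theorem isReduced_invRev {l : List (ι × Bool)} (h : IsReduced l) : IsReduced (invRev l) := by
  rw [isReduced_iff_reduce_eq, reduce_invRev, h.reduce_eq]

/-- the first letter of `h⁻¹ z` -/
theorem hd_inv_mul (h z : FreeGroup ι) : ∃ C X' Y', h.toWord = C ++ X' ∧ z.toWord = C ++ Y' ∧
    (h⁻¹ * z).toWord = invRev X' ++ Y' := by
  obtain ⟨C, X', Y', hX, hY, hne⟩ := common h.toWord z.toWord
  refine ⟨C, X', Y', hX, hY, ?_⟩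
  have hrX : FreeGroup.IsReduced X' := by
    have := isReduced_toWord (x := h)
    rw [hX] at this
    exact red_right this
  have hrY : FreeGroup.IsReduced Y' := by
    have := isReduced_toWord (x := z)
    rw [hY] at this
    exact red_right this
  have hprod : h⁻¹ * z = mk (invRev X' ++ Y') := by
    rw [← mk_toWord (x := h), ← mk_toWord (x := z), hX, hY, ← mul_mk, ← mul_mk, mul_inv_rev,
      ← mul_mk, ← inv_mk]
    group
  have hred : FreeGroup.IsReduced (invRev X' ++ Y') := by
    have hiX : FreeGroup.IsReduced (invRev X') := isReduced_invRev hrX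
    unfold FreeGroup.IsReduced at *
    rw [List.isChain_append]
    refine ⟨hiX, hrY, ?_⟩
    intro a ha b hb hab
    rw [invRev, List.getLast?_reverse, List.head?_map] at ha
    rcases hh : X'.head? with _ | z
    · rw [hh] at ha; simp at ha
    · rw [hh] at ha
      simp only [Option.map_some, Option.mem_def, Option.some.injEq] at ha
      have hzb := hne z hh b hb
      subst ha
      simp only at hab ⊢
      rcases z with ⟨z1, z2⟩
      rcases b with ⟨b1, b2⟩
      simp only at hab ⊢
      subst hab
      cases z2 <;> cases b2 <;> simp_all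
  rw [hprod, toWord_mk, hred.reduce_eq]

/-- cylinders are nested with their translates -/
theorem nested_Hs (s : ι × Bool) : Nested (Hs (1 : FreeGroup ι) s) := by
  intro h
  have hmem : ∀ z : FreeGroup ι, z ∈ Hs (1 : FreeGroup ι) s ↔ z.toWord.head? = some s := by
    intro z
    rw [mem_Hs, inv_one, one_mul]
    rfl
  simp only [hmem]
  by_cases hlast : h.toWord.getLast? = some (fl s)
  · -- the word of `h` ends with `s⁻¹`
    obtain ⟨L, hL⟩ : ∃ L, h.toWord = L ++ [fl s] := by
      rw [List.getLast?_eq_some_iff] at hlast
      exact hlast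
    -- if the first letter of `h⁻¹ z` is not `s`, then `h` is a prefix of `z`
    have key : ∀ z : FreeGroup ι, (h⁻¹ * z).toWord.head? ≠ some s → h.toWord <+: z.toWord := by
      intro z hz
      obtain ⟨C, X', Y', hX, hY, hw⟩ := hd_inv_mul h z
      rcases List.eq_nil_or_concat X' with rfl | ⟨X'', x, rfl⟩
      · rw [List.append_nil] at hX
        rw [hX]
        exact ⟨Y', hY.symm⟩
      · exfalso
        apply hz
        rw [hw]
        have hx : x = fl s := by
          rw [hL] at hX
          rw [List.concat_eq_append, ← List.append_assoc] at hX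
          exact (List.append_inj' hX rfl).2 |> fun h => (List.singleton_inj.mp h).symm
        subst hx
        simp [invRev, fl]
    by_cases h1 : h.toWord.head? = some s
    · refine Or.inr (Or.inr (Or.inr fun z => ?_))
      by_cases hz : (h⁻¹ * z).toWord.head? = some s
      · exact Or.inr hz
      · left
        obtain ⟨t, ht⟩ := key z hz
        rw [← ht, List.head?_append, h1]
        rfl
    · refine Or.inr (Or.inl fun z hz => ?_)
      by_contra hcon
      obtain ⟨t, ht⟩ := key z hcon
      rw [← ht, List.head?_append] at hz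
      rcases hh : h.toWord.head? with _ | y
      · rw [List.head?_eq_none_iff] at hh
        rw [hL] at hh
        simp at hh
      · rw [hh] at hz h1
        simp at hz
        exact h1 (by rw [hz])
  · -- no cancellation in `h s`
    have key : ∀ z : FreeGroup ι, (h⁻¹ * z).toWord.head? = some s →
        ∃ t, z.toWord = h.toWord ++ (s :: t) := by
      intro z hz
      obtain ⟨C, X', Y', hX, hY, hw⟩ := hd_inv_mul h z
      rcases List.eq_nil_or_concat X' with rfl | ⟨X'', x, rfl⟩
      · rw [List.append_nil] at hX
        rw [hw] at hz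
        simp only [invRev, List.map_nil, List.reverse_nil, List.nil_append] at hz
        rcases Y' with _ | ⟨y, t⟩
        · simp at hz
        · simp only [List.head?_cons, Option.some.injEq] at hz
          subst hz
          exact ⟨t, by rw [hX]; exact hY⟩
      · exfalso
        apply hlast
        rw [hX, List.concat_eq_append, ← List.append_assoc, List.getLast?_concat]
        rw [hw] at hz
        simp only [List.concat_eq_append, invRev, List.map_append, List.map_cons, List.map_nil,
          List.reverse_append, List.reverse_cons, List.reverse_nil, List.nil_append,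
          List.cons_append, List.head?_cons, Option.some.injEq] at hz
        rw [← hz]
        simp [fl]
    rcases hh : h.toWord.head? with _ | y
    · -- `h = 1`
      rw [List.head?_eq_none_iff] at hh
      refine Or.inl fun z hz => ?_
      obtain ⟨t, ht⟩ := key z hz
      rw [ht, hh]; rfl
    · by_cases hy : y = s
      · subst hy
        refine Or.inl fun z hz => ?_
        obtain ⟨t, ht⟩ := key z hz
        rw [ht, List.head?_append, hh]; rfl
      · refine Or.inr (Or.inr (Or.inl fun z hz hz' => ?_))
        obtain ⟨t, ht⟩ := key z hz'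
        rw [ht, List.head?_append, hh] at hz
        simp at hz
        exact hy hz

end

end Pool.Agent.V1119.PP
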