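import Mathlib
import Pool.Agent.V1119.PP.Half

/-!
# Lines, crossings
-/

set_option autoImplicit false
set_option linter.unusedSectionVars false

namespace Pool.Agent.V1119.PP

open FreeGroup Filter

section
variable {ι : Type*} [DecidableEq ι]

/-- some cyclically reduced word conjugate to `w` contains `l` -/
def Pat (w : FreeGroup ι) (l : List (ι × Bool)) : Prop :=
  ∃ W : List (ι × Bool), IsCyclicallyReduced W ∧ IsConj w (mk W) ∧ l <:+: W

theorem Pat.mono {w : FreeGroup ι} {l m : List (ι × Bool)} (h : Pat w l) (hm : m <:+: l) :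
    Pat w m := by
  obtain ⟨W, h1, h2, h3⟩ := h
  exact ⟨W, h1, h2, hm.trans h3⟩

/-- no conjugate of `w` runs from `B` to its complement -/
def Posi (w : FreeGroup ι) (B : Set (FreeGroup ι)) : Prop :=
  ∀ c, IsConj w c → ¬ ((∀ᶠ n : ℕ in atTop, c⁻¹ ^ n ∈ B) ∧ (∀ᶠ n : ℕ in atTop, c ^ n ∉ B))

theorem line (z : ι × Bool) (R : List (ι × Bool)) (hW : IsCyclicallyReduced (z :: R))
    (p : FreeGroup ι) : ∀ᶠ n : ℕ in atTop, (p * mk (z :: R) * p⁻¹) ^ n ∈ Hs p z := by
  rw [eventually_atTop]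
  refine ⟨FreeGroup.norm p + 1, fun n hn => ?_⟩
  rw [mem_Hs, conj_pow]
  have e : p⁻¹ * (p * mk (z :: R) ^ n * p⁻¹) = mk (z :: R) ^ n * p⁻¹ := by group
  rw [e]
  have hw : (mk (z :: R) ^ n).toWord = (List.replicate n (z :: R)).flatten := by
    rw [toWord_pow, toWord_mk, hW.isReduced.reduce_eq, (hW.flatten_replicate n).isReduced.reduce_eq]
  have hlen : n ≤ FreeGroup.norm (mk (z :: R) ^ n) := by
    unfold FreeGroup.norm
    rw [hw]
    simp only [List.length_flatten, List.map_replicate, List.sum_replicate, smul_eq_mul,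
      List.length_cons]
    nlinarith
  unfold hd
  rw [head_mul _ _ (by rw [norm_inv_eq]; omega), hw]
  obtain ⟨m, rfl⟩ : ∃ m, n = m + 1 := ⟨n - 1, by omega⟩
  rw [List.replicate_succ, List.flatten_cons]
  rfl

theorem cyc_invRev {W : List (ι × Bool)} (h : IsCyclicallyReduced W) :
    IsCyclicallyReduced (invRev W) := by
  refine ⟨isReduced_invRev h.isReduced, fun a ha b hb hab => ?_⟩
  rw [invRev, List.getLast?_reverse, List.head?_map] at ha
  rw [invRev, List.head?_reverse, List.getLast?_map] at hb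
  rcases h1 : W.head? with _ | x
  · rw [h1] at ha; simp at ha
  rcases h2 : W.getLast? with _ | y
  · rw [h2] at hb; simp at hb
  rw [h1] at ha
  rw [h2] at hb
  simp only [Option.map_some, Option.mem_def, Option.some.injEq] at ha hb
  subst ha hb
  simp only at hab ⊢
  have := h.2 y (by rw [h2]; rfl) x (by rw [h1]; rfl) hab.symm
  rw [this]

theorem rot {A1 B1 : List (ι × Bool)} (h : IsCyclicallyReduced (A1 ++ B1)) :
    IsCyclicallyReduced (B1 ++ A1) := by
  rcases A1 with _ | ⟨a, A1⟩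
  · simpa using h
  rcases List.eq_nil_or_concat B1 with rfl | ⟨B2, b, rfl⟩
  · simpa using h
  have h2 := (h.flatten_replicate 2).isReduced
  simp only [List.replicate_succ, List.replicate_zero, List.flatten_cons, List.flatten_nil,
    List.append_nil] at h2
  have h3 : IsReduced (B2.concat b ++ (a :: A1)) :=
    redSub h2 (s := a :: A1) (t := B2.concat b) (by simp)
  refine ⟨h3, ?_⟩
  -- last letter of `A1`, first letter of `B2`
  intro x hx y hy hxy
  have h4 : IsReduced ((a :: A1) ++ B2.concat b) := h.isReduced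
  unfold FreeGroup.IsReduced at h4
  rw [List.isChain_append] at h4
  refine h4.2.2 x ?_ y ?_ hxy
  · rw [List.getLast?_append] at hx
    rcases hh : (a :: A1).getLast? with _ | w
    · simp at hh
    · rw [hh] at hx
      simpa using hx
  · rw [List.head?_append] at hy
    rcases hh : (B2.concat b).head? with _ | w
    · simp at hh
    · rw [hh] at hy
      simpa using hy

theorem conj_rot (A1 B1 : List (ι × Bool)) :
    IsConj (mk (A1 ++ B1) : FreeGroup ι) (mk (B1 ++ A1)) := by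
  rw [isConj_iff]
  refine ⟨(mk A1)⁻¹, ?_⟩
  rw [← mul_mk, ← mul_mk]
  group

theorem ne_one_of_cyc {z : ι × Bool} {R : List (ι × Bool)} (hW : IsCyclicallyReduced (z :: R))
    (p : FreeGroup ι) : p * mk (z :: R) * p⁻¹ ≠ 1 := by
  intro h
  have h1 : (mk (z :: R) : FreeGroup ι) = 1 := by
    have h2 : (mk (z :: R) : FreeGroup ι) = p⁻¹ * (p * mk (z :: R) * p⁻¹) * p := by group
    rw [h2, h]
    group
  have h2 : (mk (z :: R) : FreeGroup ι).toWord = [] := by rw [h1]; simp
  rw [toWord_mk, hW.isReduced.reduce_eq] at h2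
  simp at h2

theorem eventually_in {B S : Set (FreeGroup ι)} {c : FreeGroup ι} (hc : c ≠ 1)
    (hfin : (S \ B).Finite) (hev : ∀ᶠ n : ℕ in atTop, c ^ n ∈ S) : ∀ᶠ n : ℕ in atTop, c ^ n ∈ B := by
  have hinj : Function.Injective (fun n : ℕ => c ^ n) := by
    rw [injective_pow_iff_not_isOfFinOrder]
    exact not_isOfFinOrder_of_isMulTorsionFree hc
  have h1 : {n : ℕ | c ^ n ∈ S \ B}.Finite := hfin.preimage hinj.injOn
  have h2 : ∀ᶠ n : ℕ in atTop, c ^ n ∉ S \ B := by
    rw [← Nat.cofinite_eq_atTop]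
    exact h1.eventually_cofinite_notMem
  filter_upwards [hev, h2] with n h3 h4
  by_contra h5
  exact h4 ⟨h3, h5⟩

theorem noline {w : FreeGroup ι} {B : Set (FreeGroup ι)} (hP : Posi w B) {p : FreeGroup ι}
    {s s' : ι × Bool} (hpat : Pat w [fl s, s']) (h1 : (Hs p s \ B).Finite)
    (h2 : (Hs p s' ∩ B).Finite) : False := by
  obtain ⟨W, hW, hconj, A1, B1, rfl⟩ := hpat
  have hW' : IsCyclicallyReduced ((A1 ++ [fl s]) ++ ([s'] ++ B1)) := by simpa using hW
  have hrot := rot hW'
  have hr1 : IsCyclicallyReduced (s' :: (B1 ++ (A1 ++ [fl s]))) := by simpa using hrot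
  set c := p * mk (s' :: (B1 ++ (A1 ++ [fl s]))) * p⁻¹ with hc
  have hinv : invRev (s' :: (B1 ++ (A1 ++ [fl s]))) = s :: invRev (s' :: (B1 ++ A1)) := by
    simp [invRev, fl]
  have hcinv : c⁻¹ = p * mk (s :: invRev (s' :: (B1 ++ A1))) * p⁻¹ := by
    rw [hc, ← hinv, ← inv_mk]
    group
  have hr2 : IsCyclicallyReduced (s :: invRev (s' :: (B1 ++ A1))) := by
    rw [← hinv]; exact cyc_invRev hr1
  have hcc : IsConj w c := by
    refine hconj.trans ?_
    have h3 := conj_rot (A1 ++ [fl s]) ([s'] ++ B1)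
    have e1 : (A1 ++ [fl s]) ++ ([s'] ++ B1) = A1 ++ [fl s, s'] ++ B1 := by simp
    rw [e1] at h3
    refine h3.trans ?_
    have e2 : ([s'] ++ B1) ++ (A1 ++ [fl s]) = s' :: (B1 ++ (A1 ++ [fl s])) := by simp
    rw [e2, isConj_iff]
    exact ⟨p, rfl⟩
  apply hP c hcc
  constructor
  · rw [hcinv]
    exact eventually_in (ne_one_of_cyc hr2 p) h1 (line _ _ hr2 p)
  · have h3 : (Hs p s' \ Bᶜ).Finite := by rwa [Set.sdiff_compl]
    exact eventually_in (ne_one_of_cyc hr1 p) h3 (line _ _ hr1 p)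

theorem noline3 {w : FreeGroup ι} {B : Set (FreeGroup ι)} (hP : Posi w B) {p : FreeGroup ι}
    {s x s' : ι × Bool} (hpat : Pat w [fl s, x, s']) (h1 : (Hs p s \ B).Finite)
    (h2 : (Hs (p * el x) s' ∩ B).Finite) : False := by
  obtain ⟨W, hW, hconj, A1, B1, rfl⟩ := hpat
  have hW1 : IsCyclicallyReduced ((A1 ++ [fl s]) ++ ([x, s'] ++ B1)) := by simpa using hW
  have hr1 : IsCyclicallyReduced (x :: (s' :: (B1 ++ (A1 ++ [fl s])))) := by simpa using rot hW1
  have hW2 : IsCyclicallyReduced ((A1 ++ [fl s, x]) ++ ([s'] ++ B1)) := by simpa using hW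
  have hr2 : IsCyclicallyReduced (s' :: (B1 ++ (A1 ++ [fl s, x]))) := by simpa using rot hW2
  set c := p * mk (x :: (s' :: (B1 ++ (A1 ++ [fl s])))) * p⁻¹ with hc
  have hc2 : c = (p * el x) * mk (s' :: (B1 ++ (A1 ++ [fl s, x]))) * (p * el x)⁻¹ := by
    have e1 : (mk (x :: (s' :: (B1 ++ (A1 ++ [fl s])))) : FreeGroup ι) =
        el x * mk (s' :: (B1 ++ (A1 ++ [fl s]))) := by rw [el, mul_mk]; rfl
    have e2 : (mk (s' :: (B1 ++ (A1 ++ [fl s, x]))) : FreeGroup ι) =
        mk (s' :: (B1 ++ (A1 ++ [fl s]))) * el x := by rw [el, mul_mk]; simp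
    rw [hc, e1, e2]
    group
  have hinv : invRev (x :: (s' :: (B1 ++ (A1 ++ [fl s])))) =
      s :: invRev (x :: (s' :: (B1 ++ A1))) := by
    simp [invRev, fl]
  have hcinv : c⁻¹ = p * mk (s :: invRev (x :: (s' :: (B1 ++ A1)))) * p⁻¹ := by
    rw [hc, ← hinv, ← inv_mk]
    group
  have hr3 : IsCyclicallyReduced (s :: invRev (x :: (s' :: (B1 ++ A1)))) := by
    rw [← hinv]; exact cyc_invRev hr1
  have hcc : IsConj w c := by
    refine hconj.trans ?_
    have h3 := conj_rot (A1 ++ [fl s]) ([x, s'] ++ B1)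
    have e1 : (A1 ++ [fl s]) ++ ([x, s'] ++ B1) = A1 ++ [fl s, x, s'] ++ B1 := by simp
    rw [e1] at h3
    refine h3.trans ?_
    have e2 : ([x, s'] ++ B1) ++ (A1 ++ [fl s]) = x :: (s' :: (B1 ++ (A1 ++ [fl s]))) := by simp
    rw [e2, isConj_iff]
    exact ⟨p, rfl⟩
  apply hP c hcc
  constructor
  · rw [hcinv]
    exact eventually_in (ne_one_of_cyc hr3 p) h1 (line _ _ hr3 p)
  · have h3 : (Hs (p * el x) s' \ Bᶜ).Finite := by rwa [Set.sdiff_compl]
    rw [hc2]
    exact eventually_in (ne_one_of_cyc hr2 _) h3 (line _ _ hr2 _)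

/-! ### crossings -/

/-- all four intersections are infinite -/
def Cross (E B : Set (FreeGroup ι)) : Prop :=
  (E ∩ B).Infinite ∧ (E \ B).Infinite ∧ (Eᶜ ∩ B).Infinite ∧ (Eᶜ \ B).Infinite

theorem Cross.compl_right {E B : Set (FreeGroup ι)} (h : Cross E B) : Cross E Bᶜ := by
  obtain ⟨h1, h2, h3, h4⟩ := h
  refine ⟨?_, ?_, ?_, ?_⟩
  · rwa [← Set.sdiff_eq]
  · rwa [Set.sdiff_compl]
  · rwa [← Set.sdiff_eq]
  · rwa [Set.sdiff_compl]

theorem cross_compl_right {E B : Set (FreeGroup ι)} : Cross E Bᶜ ↔ Cross E B := by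
  constructor
  · intro h
    have := h.compl_right
    rwa [compl_compl] at this
  · exact Cross.compl_right

theorem Cross.compl_left {E B : Set (FreeGroup ι)} (h : Cross E B) : Cross Eᶜ B := by
  obtain ⟨h1, h2, h3, h4⟩ := h
  refine ⟨h3, h4, ?_, ?_⟩
  · rwa [compl_compl]
  · rwa [compl_compl]

theorem cross_compl_left {E B : Set (FreeGroup ι)} : Cross Eᶜ B ↔ Cross E B := by
  constructor
  · intro h
    have := h.compl_left
    rwa [compl_compl] at this
  · exact Cross.compl_left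

theorem inf_pre (α : FreeGroup ι ≃* FreeGroup ι) (X : Set (FreeGroup ι)) :
    (α ⁻¹' X).Finite ↔ X.Finite := by
  constructor
  · intro h
    have h1 := h.image α
    rwa [Set.image_preimage_eq X α.surjective] at h1
  · intro h
    exact h.preimage α.injective.injOn

theorem cross_pre (α : FreeGroup ι ≃* FreeGroup ι) (S B : Set (FreeGroup ι)) :
    Cross (α ⁻¹' S) (α ⁻¹' B) ↔ Cross S B := by
  unfold Cross
  have h1 : ∀ X : Set (FreeGroup ι), (α ⁻¹' X).Infinite ↔ X.Infinite := fun X =>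
    not_congr (inf_pre α X)
  rw [← h1 (S ∩ B), ← h1 (S \ B), ← h1 (Sᶜ ∩ B), ← h1 (Sᶜ \ B)]
  rfl

/-- translate -/
def tr (g : FreeGroup ι) (E : Set (FreeGroup ι)) : Set (FreeGroup ι) := {z | g⁻¹ * z ∈ E}

theorem tr_fin (g : FreeGroup ι) {E : Set (FreeGroup ι)} : (tr g E).Finite ↔ E.Finite := by
  have h : tr g E = (fun z => g⁻¹ * z) ⁻¹' E := rfl
  constructor
  · intro h1
    rw [h] at h1
    have h2 := h1.image (fun z => g⁻¹ * z)
    rwa [Set.image_preimage_eq E (fun z => ⟨g * z, by simp⟩)] at h2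
  · intro h1
    rw [h]
    exact h1.preimage (mul_right_injective g⁻¹).injOn

theorem tr_tr (g h : FreeGroup ι) (E : Set (FreeGroup ι)) : tr g (tr h E) = tr (g * h) E := by
  ext z
  simp only [tr, Set.mem_ofPred_eq, mul_inv_rev, mul_assoc]

theorem tr_inter (g : FreeGroup ι) (E E' : Set (FreeGroup ι)) :
    tr g (E ∩ E') = tr g E ∩ tr g E' := rfl
theorem tr_diff (g : FreeGroup ι) (E E' : Set (FreeGroup ι)) :
    tr g (E \ E') = tr g E \ tr g E' := rfl
theorem tr_compl (g : FreeGroup ι) (E : Set (FreeGroup ι)) :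
    tr g Eᶜ = (tr g E)ᶜ := rfl

theorem tr_Hs (g p : FreeGroup ι) (s : ι × Bool) : tr g (Hs p s) = Hs (g * p) s := by
  ext z
  rw [mem_Hs_mul]
  rfl

/-- The key lemma: passing from `H` to `E` does not create crossings. -/
theorem dec {B : Set (FreeGroup ι)} (hn : Nested B) {H E : Set (FreeGroup ι)} (hEH : E ⊆ H)
    (p : FreeGroup ι) (h1 : (tr p E ∩ B).Finite) (h2 : (tr p (H \ E) \ B).Finite)
    (hx : Cross (tr p H) B) (g : FreeGroup ι) (hg : Cross (tr g E) B) : Cross (tr g H) B := by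
  obtain ⟨g1, g2, g3, g4⟩ := hg
  have hsub : tr g E ⊆ tr g H := fun z hz => hEH hz
  have a1 : (tr g H ∩ B).Infinite := g1.mono (Set.inter_subset_inter_left _ hsub)
  have a2 : (tr g H \ B).Infinite := g2.mono (Set.sdiff_subset_sdiff_left hsub)
  set h := g * p⁻¹ with hh
  -- translates of the two finiteness assumptions
  have b1 : (tr g E ∩ tr h B).Finite := by
    have := (tr_fin h).mpr h1
    rw [tr_inter, tr_tr, hh, inv_mul_cancel_right] at this
    exact this
  have b2 : (tr g (H \ E) \ tr h B).Finite := by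
    have := (tr_fin h).mpr h2
    rw [tr_diff, tr_tr, hh, inv_mul_cancel_right] at this
    exact this
  have b3 : ∀ X : Set (FreeGroup ι), X ⊆ tr h B → ((tr g H)ᶜ ∩ tr h B).Finite → False := by
    intro X _ hfin
    have h3 := (tr_fin h⁻¹).mpr hfin
    rw [tr_inter, tr_compl, tr_tr, tr_tr] at h3
    have e1 : h⁻¹ * g = p := by rw [hh]; group
    have e2 : tr (h⁻¹ * h) B = B := by
      rw [inv_mul_cancel]
      ext z
      simp [tr]
    rw [e1, e2] at h3
    exact hx.2.2.1 h3
  by_contra hcon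
  have hcon' : ((tr g H)ᶜ ∩ B).Finite ∨ ((tr g H)ᶜ \ B).Finite := by
    by_contra hh
    push Not at hh
    exact hcon ⟨a1, a2, hh.1, hh.2⟩
  rcases hcon' with hA | hA
  · have c1 : (tr g (H \ E) ∩ B).Infinite := by
      intro hfin
      apply g3
      refine (hA.union hfin).subset ?_
      rintro z ⟨hz1, hz2⟩
      by_cases hz : z ∈ tr g H
      · exact Or.inr ⟨⟨hz, hz1⟩, hz2⟩
      · exact Or.inl ⟨hz, hz2⟩
    rcases hn h with n1 | n1 | n1 | n1
    · -- `hB ⊆ B`
      apply b3 ∅ (Set.empty_subset _)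
      refine hA.subset ?_
      rintro z ⟨hz1, hz2⟩
      exact ⟨hz1, n1 z hz2⟩
    · apply g1
      refine b1.subset ?_
      rintro z ⟨hz1, hz2⟩
      exact ⟨hz1, n1 z hz2⟩
    · apply c1
      refine b2.subset ?_
      rintro z ⟨hz1, hz2⟩
      exact ⟨hz1, n1 z hz2⟩
    · apply g2
      refine b1.subset ?_
      rintro z ⟨hz1, hz2⟩
      exact ⟨hz1, (n1 z).resolve_left hz2⟩
  · have c1 : (tr g (H \ E) \ B).Infinite := by
      intro hfin
      apply g4
      refine (hA.union hfin).subset ?_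
      rintro z ⟨hz1, hz2⟩
      by_cases hz : z ∈ tr g H
      · exact Or.inr ⟨⟨hz, hz1⟩, hz2⟩
      · exact Or.inl ⟨hz, hz2⟩
    rcases hn h with n1 | n1 | n1 | n1
    · apply c1
      refine b2.subset ?_
      rintro z ⟨hz1, hz2⟩
      exact ⟨hz1, fun hz3 => hz2 (n1 z hz3)⟩
    · apply g1
      refine b1.subset ?_
      rintro z ⟨hz1, hz2⟩
      exact ⟨hz1, n1 z hz2⟩
    · apply b3 ∅ (Set.empty_subset _)
      refine hA.subset ?_
      rintro z ⟨hz1, hz2⟩
      exact ⟨hz1, fun hz3 => n1 z hz3 hz2⟩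
    · apply g2
      refine b1.subset ?_
      rintro z ⟨hz1, hz2⟩
      exact ⟨hz1, (n1 z).resolve_left hz2⟩

/-- crossing pairs -/
def Cr (B : Set (FreeGroup ι)) : Set (FreeGroup ι × (ι × Bool)) := {x | Cross (Hs x.1 x.2) B}

theorem mul_el_cases (p : FreeGroup ι) (s : ι × Bool) :
    (p * el s).toWord = p.toWord ++ [s] ∨ p.toWord = (p * el s).toWord ++ [fl s] :=
  toWord_mul_letter p s

theorem Cr_finite [Finite ι] {B : Set (FreeGroup ι)} (h : AI B) : (Cr B).Finite := by
  obtain ⟨N, hN⟩ := h.pure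
  have key : ∀ (p : FreeGroup ι) (s : ι × Bool), N ≤ p.toWord.length →
      (p * el s).toWord = p.toWord ++ [s] → ¬ Cross (Hs p s) B := by
    intro p s hp hs hcr
    have h1 := hN p s hp hs
    by_cases hpB : p ∈ B
    · apply hcr.2.1
      refine Set.finite_empty.subset ?_
      rintro z ⟨hz1, hz2⟩
      exact (hz2 ((h1 z hz1).mpr hpB)).elim
    · apply hcr.1
      refine Set.finite_empty.subset ?_
      rintro z ⟨hz1, hz2⟩
      exact (hpB ((h1 z hz1).mp hz2)).elim
  have hsub : Cr B ⊆ {z : FreeGroup ι | z.toWord.length ≤ N + 1} ×ˢ (Set.univ : Set (ι × Bool)) := by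
    rintro ⟨p, s⟩ hps
    refine ⟨?_, Set.mem_univ _⟩
    simp only [Set.mem_ofPred_eq]
    by_contra hlen
    push Not at hlen
    rcases mul_el_cases p s with h1 | h1
    · exact key p s (by omega) h1 hps
    · have h2 : Cross (Hs (p * el s) (fl s)) B := by
        rw [← Hs_compl]
        exact hps.compl_left
      refine key (p * el s) (fl s) ?_ ?_ h2
      · have := congrArg List.length h1
        rw [List.length_append, List.length_singleton] at this
        omega
      · rw [el_fl, mul_inv_cancel_right]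
        exact h1
  exact ((finite_ball (N + 1)).prod Set.finite_univ).subset hsub

end

end Pool.Agent.V1119.PP
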