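import Mathlib
import Pool.Agent.V1119.PP.Lines

/-!
# The automorphisms `a ↦ u a v`
-/

set_option autoImplicit false
set_option linter.unusedSectionVars false

namespace Pool.Agent.V1119.PP

open FreeGroup Filter

section
variable {κ : Type} [DecidableEq κ]

/-- the distinguished letter -/
def A : Option κ × Bool := (none, true)
/-- its inverse -/
def A' : Option κ × Bool := (none, false)

theorem fl_A : fl (A : Option κ × Bool) = A' := rfl
theorem fl_A' : fl (A' : Option κ × Bool) = A := rfl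
theorem A_ne_A' : (A : Option κ × Bool) ≠ A' := by simp [A, A']

/-- the other letters -/
def isL (s : Option κ × Bool) : Prop := s.1 ≠ none

theorem isL_fl {s : Option κ × Bool} (h : isL s) : isL (fl s) := h
theorem isL.ne_A {s : Option κ × Bool} (h : isL s) : s ≠ A := fun e => h (by rw [e]; rfl)
theorem isL.ne_A' {s : Option κ × Bool} (h : isL s) : s ≠ A' := fun e => h (by rw [e]; rfl)
theorem not_isL {s : Option κ × Bool} (h : ¬ isL s) : s = A ∨ s = A' := by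
  rcases s with ⟨_ | k, _ | _⟩
  · exact Or.inr rfl
  · exact Or.inl rfl
  · exact absurd (by simp [isL]) h
  · exact absurd (by simp [isL]) h

/-- embedding of the free group on the other letters -/
def jj : FreeGroup κ →* FreeGroup (Option κ) := FreeGroup.map some

theorem jj_el (s : κ × Bool) : jj (el s) = el (some s.1, s.2) := by
  simp [jj, el]

/-- the homomorphism `a ↦ u a v` -/
def mvh (u v : FreeGroup κ) : FreeGroup (Option κ) →* FreeGroup (Option κ) :=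
  FreeGroup.lift (fun o => match o with
    | none => jj u * of none * jj v
    | some k => of (some k))

theorem mvh_none (u v : FreeGroup κ) : mvh u v (of none) = jj u * of none * jj v := by
  simp [mvh]
theorem mvh_some (u v : FreeGroup κ) (k : κ) : mvh u v (of (some k)) = of (some k) := by
  simp [mvh]

theorem mvh_jj (u v x : FreeGroup κ) : mvh u v (jj x) = jj x := by
  have : (mvh u v).comp jj = jj := by
    apply FreeGroup.ext_hom
    intro k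
    simp [jj, mvh_some]
  exact DFunLike.congr_fun this x

theorem mvh_comp (u v u' v' : FreeGroup κ) :
    (mvh u v).comp (mvh u' v') = mvh (u' * u) (v * v') := by
  apply FreeGroup.ext_hom
  intro o
  rcases o with _ | k
  · rw [MonoidHom.comp_apply, mvh_none, _root_.map_mul, _root_.map_mul, mvh_jj, mvh_jj, mvh_none,
      mvh_none, _root_.map_mul, _root_.map_mul]
    group
  · rw [MonoidHom.comp_apply, mvh_some, mvh_some, mvh_some]

theorem mvh_one : mvh (1 : FreeGroup κ) 1 = MonoidHom.id _ := by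
  apply FreeGroup.ext_hom
  intro o
  rcases o with _ | k
  · rw [mvh_none]; simp
  · rw [mvh_some]; simp

/-- the automorphism `a ↦ u a v` -/
def mv (u v : FreeGroup κ) : FreeGroup (Option κ) ≃* FreeGroup (Option κ) :=
  MonoidHom.toMulEquiv (mvh u v) (mvh u⁻¹ v⁻¹)
    (by rw [mvh_comp, mul_inv_cancel, inv_mul_cancel, mvh_one])
    (by rw [mvh_comp, inv_mul_cancel, mul_inv_cancel, mvh_one])

theorem mv_apply (u v : FreeGroup κ) (z : FreeGroup (Option κ)) : mv u v z = mvh u v z := rfl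
theorem mv_symm_apply (u v : FreeGroup κ) (z : FreeGroup (Option κ)) :
    (mv u v).symm z = mvh u⁻¹ v⁻¹ z := rfl

theorem mv_A (u v : FreeGroup κ) : mv u v (el A) = jj u * el A * jj v := by
  have : (el A : FreeGroup (Option κ)) = of none := rfl
  rw [mv_apply, this, mvh_none]

theorem mv_el {s : Option κ × Bool} (h : isL s) (u v : FreeGroup κ) : mv u v (el s) = el s := by
  rcases s with ⟨_ | k, b⟩
  · exact absurd rfl h
  · have := mvh_jj u v (el (k, b))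
    rw [jj_el] at this
    exact this

/-! ### the sets for ping-pong -/

/-- The condition on the first letters `h0` of `z` and `h1` of `t⁻¹ z`. -/
def PT (t : Option κ × Bool) (ε₁ ε₂ : Prop) (s : Option κ × Bool)
    (h0 h1 : Option (Option κ × Bool)) : Prop :=
  (s = A ∧ ((ε₁ ∧ h1 = some A) ∨ (¬ ε₁ ∧ h0 = some A))) ∨
  (s = A' ∧ ((ε₂ ∧ h1 = some A') ∨ (¬ ε₂ ∧ h0 = some A'))) ∨
  (s = t ∧ h0 = some t ∧ ¬ (ε₁ ∧ h1 = some A) ∧ ¬ (ε₂ ∧ h1 = some A')) ∨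
  (s = fl t ∧ (h0 = some (fl t) ∨ (ε₁ ∧ h0 = some A) ∨ (ε₂ ∧ h0 = some A'))) ∨
  (s ≠ A ∧ s ≠ A' ∧ s ≠ t ∧ s ≠ fl t ∧ h0 = some s)

/-- The sets. -/
def TT (t : Option κ × Bool) (ε₁ ε₂ : Prop) (s : Option κ × Bool) : Set (FreeGroup (Option κ)) :=
  {z | PT t ε₁ ε₂ s (hd z) (hd ((el t)⁻¹ * z))}

theorem hd_h1 {t s : Option κ × Bool} (hs : s ≠ fl t) {z : FreeGroup (Option κ)}
    (h : hd ((el t)⁻¹ * z) = some s) : hd z = some t := by
  have h1 : z ∈ Hs (1 * el t) s := by rw [mem_Hs, one_mul]; exact h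
  have h2 := Hs_sub hs h1
  rw [mem_Hs, inv_one, one_mul] at h2
  exact h2

theorem PT_disj {t : Option κ × Bool} (ht : isL t) (ε₁ ε₂ : Prop) {s s' : Option κ × Bool}
    (hne : s ≠ s') {h0 h1 : Option (Option κ × Bool)}
    (hh : h1 = some A → h0 = some t) (hh' : h1 = some A' → h0 = some t)
    (h : PT t ε₁ ε₂ s h0 h1) (h' : PT t ε₁ ε₂ s' h0 h1) : False := by
  have a1 := ht.ne_A
  have a2 := ht.ne_A'
  have a3 := (isL_fl ht).ne_A
  have a4 := (isL_fl ht).ne_A'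
  have a5 := fl_ne t
  have a6 := A_ne_A' (κ := κ)
  have b1 := a1.symm
  have b2 := a2.symm
  have b3 := a3.symm
  have b4 := a4.symm
  have b5 := a5.symm
  have b6 := a6.symm
  unfold PT at h h'
  rcases h with ⟨rfl, h⟩ | ⟨rfl, h⟩ | ⟨rfl, h, h2, h3⟩ | ⟨rfl, h⟩ | ⟨c1, c2, c3, c4, h⟩ <;>
  rcases h' with ⟨rfl, h'⟩ | ⟨rfl, h'⟩ | ⟨rfl, h', h2', h3'⟩ | ⟨rfl, h'⟩ | ⟨c1', c2', c3', c4', h'⟩
  all_goals
    first
    | exact hne rfl
    | (by_cases e1 : ε₁ <;> by_cases e2 : ε₂ <;>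
        simp_all)

theorem TT_disj {t : Option κ × Bool} (ht : isL t) (ε₁ ε₂ : Prop) {s s' : Option κ × Bool}
    (hne : s ≠ s') : Disjoint (TT t ε₁ ε₂ s) (TT t ε₁ ε₂ s') := by
  rw [Set.disjoint_left]
  intro z hz hz'
  exact PT_disj ht ε₁ ε₂ hne (hd_h1 (isL_fl ht).ne_A.symm) (hd_h1 (isL_fl ht).ne_A'.symm) hz hz'

theorem TT_A {t : Option κ × Bool} (ht : isL t) (ε₁ ε₂ : Prop) {U : FreeGroup (Option κ)}
    (hU : (ε₁ ∧ U = el t) ∨ (¬ ε₁ ∧ U = 1)) (z : FreeGroup (Option κ)) :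
    z ∈ TT t ε₁ ε₂ A ↔ z ∈ Hs U A := by
  have a1 := ht.ne_A.symm
  have a3 := (isL_fl ht).ne_A.symm
  have a6 := A_ne_A' (κ := κ)
  show PT t ε₁ ε₂ A _ _ ↔ _
  unfold PT
  rw [mem_Hs]
  rcases hU with ⟨h, rfl⟩ | ⟨h, rfl⟩
  · simp [h, a1, a3, a6]
  · simp [h, a1, a3, a6]

theorem TT_A' {t : Option κ × Bool} (ht : isL t) (ε₁ ε₂ : Prop) {V : FreeGroup (Option κ)}
    (hV : (ε₂ ∧ V = el t) ∨ (¬ ε₂ ∧ V = 1)) (z : FreeGroup (Option κ)) :
    z ∈ TT t ε₁ ε₂ A' ↔ z ∈ Hs V A' := by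
  have a1 := ht.ne_A'.symm
  have a3 := (isL_fl ht).ne_A'.symm
  have a6 := (A_ne_A' (κ := κ)).symm
  show PT t ε₁ ε₂ A' _ _ ↔ _
  unfold PT
  rw [mem_Hs]
  rcases hV with ⟨h, rfl⟩ | ⟨h, rfl⟩
  · simp [h, a1, a3, a6]
  · simp [h, a1, a3, a6]

theorem TT_t {t : Option κ × Bool} (ht : isL t) (ε₁ ε₂ : Prop) (z : FreeGroup (Option κ)) :
    z ∈ TT t ε₁ ε₂ t ↔ (z ∈ Hs 1 t ∧ ¬ (ε₁ ∧ z ∈ Hs (el t) A) ∧ ¬ (ε₂ ∧ z ∈ Hs (el t) A')) := by
  have a1 := ht.ne_A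
  have a2 := ht.ne_A'
  have a5 := (fl_ne t).symm
  show PT t ε₁ ε₂ t _ _ ↔ _
  unfold PT
  rw [mem_Hs, mem_Hs, mem_Hs, inv_one, one_mul]
  simp [a1, a2, a5]

theorem TT_flt {t : Option κ × Bool} (ht : isL t) (ε₁ ε₂ : Prop) (z : FreeGroup (Option κ)) :
    z ∈ TT t ε₁ ε₂ (fl t) ↔ el t * z ∉ TT t ε₁ ε₂ t := by
  have a1 := (isL_fl ht).ne_A
  have a2 := (isL_fl ht).ne_A'
  have a5 := fl_ne t
  rw [TT_t ht, mem_Hs, mem_Hs, mem_Hs, inv_one, one_mul, inv_mul_cancel_left, hd_cons_iff]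
  show PT t ε₁ ε₂ (fl t) _ _ ↔ _
  unfold PT
  simp only [a1, a2, a5, false_and, false_or, true_and, ne_eq, not_true_eq_false, not_and,
    not_false_eq_true, or_false]
  tauto

theorem TT_other {t s : Option κ × Bool} (ε₁ ε₂ : Prop) (h1 : s ≠ A) (h2 : s ≠ A')
    (h3 : s ≠ t) (h4 : s ≠ fl t) (z : FreeGroup (Option κ)) :
    z ∈ TT t ε₁ ε₂ s ↔ z ∈ Hs 1 s := by
  show PT t ε₁ ε₂ s _ _ ↔ _
  unfold PT
  rw [mem_Hs, inv_one, one_mul]
  simp [h1, h2, h3, h4]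

theorem TT_one {t : Option κ × Bool} (ht : isL t) (ε₁ ε₂ : Prop) (s : Option κ × Bool) :
    (1 : FreeGroup (Option κ)) ∉ TT t ε₁ ε₂ s := by
  have a3 := (isL_fl ht).ne_A
  have a4 := (isL_fl ht).ne_A'
  have h1 : hd ((el t)⁻¹ * 1 : FreeGroup (Option κ)) = some (fl t) := by
    rw [← el_fl, hd_cons_iff, fl_fl]
    simp
  show ¬ PT t ε₁ ε₂ s (hd 1) (hd ((el t)⁻¹ * 1))
  rw [h1, hd_one]
  unfold PT
  simp [a3, a4]

/-- The automorphism of a move. -/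
def mvT (tk : κ × Bool) (ε₁ ε₂ : Bool) : FreeGroup (Option κ) ≃* FreeGroup (Option κ) :=
  mv (if ε₁ then el tk else 1) (if ε₂ then (el tk)⁻¹ else 1)

/-- `U` -/
def UU (tk : κ × Bool) (ε : Bool) : FreeGroup (Option κ) :=
  if ε then el (some tk.1, tk.2) else 1

theorem mvT_A (tk : κ × Bool) (ε₁ ε₂ : Bool) :
    mvT tk ε₁ ε₂ (el A) = UU tk ε₁ * el A * (UU tk ε₂)⁻¹ := by
  unfold mvT UU
  rw [mv_A]
  cases ε₁ <;> cases ε₂ <;> simp [jj_el]

theorem mvT_el {s : Option κ × Bool} (h : isL s) (tk : κ × Bool) (ε₁ ε₂ : Bool) :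
    mvT tk ε₁ ε₂ (el s) = el s := mv_el h _ _

theorem TT_compl (tk : κ × Bool) (ε₁ ε₂ : Bool) (s : Option κ × Bool)
    (z : FreeGroup (Option κ)) :
    z ∈ TT (some tk.1, tk.2) (ε₁ = true) (ε₂ = true) s ↔
      (mvT tk ε₁ ε₂ (el s))⁻¹ * z ∉ TT (some tk.1, tk.2) (ε₁ = true) (ε₂ = true) (fl s) := by
  set t : Option κ × Bool := (some tk.1, tk.2) with ht'
  have ht : isL t := by simp [isL, ht']
  have hU : ((ε₁ = true) ∧ UU tk ε₁ = el t) ∨ (¬ (ε₁ = true) ∧ UU tk ε₁ = 1) := by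
    unfold UU
    cases ε₁ <;> simp [ht']
  have hV : ((ε₂ = true) ∧ UU tk ε₂ = el t) ∨ (¬ (ε₂ = true) ∧ UU tk ε₂ = 1) := by
    unfold UU
    cases ε₂ <;> simp [ht']
  by_cases h1 : s = A
  · subst h1
    rw [TT_A ht _ _ hU, fl_A, TT_A' ht _ _ hV, mvT_A, mem_Hs_flip, fl_A, ← mem_Hs_mul]
    rw [inv_mul_cancel_right]
  by_cases h2 : s = A'
  · subst h2
    have e : mvT tk ε₁ ε₂ (el A') = (UU tk ε₁ * el A * (UU tk ε₂)⁻¹)⁻¹ := by
      rw [← mvT_A, ← _root_.map_inv, ← el_fl, fl_A]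
    rw [TT_A' ht _ _ hV, fl_A', TT_A ht _ _ hU, e, inv_inv, mem_Hs_flip, fl_A']
    rw [not_iff_not]
    have e2 : UU tk ε₂ * el A' = ((UU tk ε₁ * el A * (UU tk ε₂)⁻¹)⁻¹) * UU tk ε₁ := by
      rw [← fl_A, el_fl]
      group
    rw [e2, mem_Hs_mul, inv_inv]
  by_cases h3 : s = t
  · subst h3
    rw [mvT_el ht, TT_flt ht, mul_inv_cancel_left, not_not]
  by_cases h4 : s = fl t
  · subst h4
    rw [mvT_el (isL_fl ht), fl_fl, TT_flt ht, el_fl, inv_inv]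
  · have hs : isL s := by
      by_contra hcon
      rcases not_isL hcon with h | h
      · exact h1 h
      · exact h2 h
    have h5 : fl s ≠ A := (isL_fl hs).ne_A
    have h6 : fl s ≠ A' := (isL_fl hs).ne_A'
    have h7 : fl s ≠ t := fun e => h4 (by rw [← e, fl_fl])
    have h8 : fl s ≠ fl t := fun e => h3 (fl_inj e)
    rw [TT_other _ _ h1 h2 h3 h4, TT_other _ _ h5 h6 h7 h8, mvT_el hs, mem_Hs_flip, one_mul]
    rw [not_iff_not]
    have e : el s = el s * 1 := (mul_one _).symm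
    conv_lhs => rw [e]
    rw [mem_Hs_mul]

/-- Images of the cylinders under a move. -/
theorem mvT_mem (tk : κ × Bool) (ε₁ ε₂ : Bool) (s : Option κ × Bool)
    (z : FreeGroup (Option κ)) :
    mvT tk ε₁ ε₂ z ∈ TT (some tk.1, tk.2) (ε₁ = true) (ε₂ = true) s ↔ hd z = some s :=
  pingpong (mvT tk ε₁ ε₂ : FreeGroup (Option κ) →* FreeGroup (Option κ)) _
    (TT_one (by simp [isL]) _ _) (fun _ _ h => TT_disj (by simp [isL]) _ _ h)
    (TT_compl tk ε₁ ε₂) z s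

theorem mvT_Hs (tk : κ × Bool) (ε₁ ε₂ : Bool) (s : Option κ × Bool)
    (g z : FreeGroup (Option κ)) :
    mvT tk ε₁ ε₂ z ∈ tr (mvT tk ε₁ ε₂ g) (TT (some tk.1, tk.2) (ε₁ = true) (ε₂ = true) s) ↔
      z ∈ Hs g s := by
  rw [mem_Hs, ← mvT_mem tk ε₁ ε₂, _root_.map_mul, _root_.map_inv]
  rfl

end

end Pool.Agent.V1119.PP
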