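import Mathlib
import Pool.Agent.V1119.PP.Move

/-!
# The main induction
-/

set_option autoImplicit false
set_option linter.unusedSectionVars false

namespace Pool.Agent.V1119.PP

open FreeGroup Filter

section
variable {κ : Type} [DecidableEq κ] [Fintype κ]

theorem finite_dirs (p : FreeGroup (Option κ)) (X : Set (FreeGroup (Option κ)))
    (S : Set (Option κ × Bool)) (h : ∀ s ∈ S, (Hs p s ∩ X).Finite) :
    {z | z ∈ X ∧ (z = p ∨ ∃ s ∈ S, z ∈ Hs p s)}.Finite := by
  have h1 : (⋃ s : S, (Hs p s.1 ∩ X)).Finite := Set.finite_iUnion (fun s => h s.1 s.2)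
  refine (h1.union (Set.finite_singleton p)).subset ?_
  rintro z ⟨hz, rfl | ⟨s, hs, hzs⟩⟩
  · exact Or.inr rfl
  · exact Or.inl (Set.mem_iUnion.mpr ⟨⟨s, hs⟩, hzs, hz⟩)

theorem leafL {B : Set (FreeGroup (Option κ))} (hAI : AI B) (hN : Nested B)
    (p' : FreeGroup (Option κ)) (tk : κ × Bool) (t : Option κ × Bool) (ht' : t = (some tk.1, tk.2))
    (hx : Cross (Hs p' t) B)
    (hpure : ∀ s, s ≠ fl t → (Hs (p' * el t) s ∩ B).Finite ∨ (Hs (p' * el t) s \ B).Finite)
    (hL : ∀ s, isL s → s ≠ fl t → (Hs (p' * el t) s ∩ B).Finite) :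
    ∃ ε₁ ε₂ : Bool, (Cr ((mvT tk ε₁ ε₂) ⁻¹' B)).ncard < (Cr B).ncard := by
  classical
  have ht : isL t := by rw [ht']; simp [isL]
  set p := p' * el t with hp
  set ε₁ : Bool := decide ((Hs p A \ B).Finite) with hε₁
  set ε₂ : Bool := decide ((Hs p A' \ B).Finite) with hε₂
  refine ⟨ε₁, ε₂, ?_⟩
  set α := mvT tk ε₁ ε₂ with hα
  set E := TT t (ε₁ = true) (ε₂ = true) t with hE
  have hU : ((ε₁ = true) ∧ UU tk ε₁ = el t) ∨ (¬ (ε₁ = true) ∧ UU tk ε₁ = 1) := by
    unfold UU
    rcases ε₁ with _ | _ <;> simp [ht']
  have hV : ((ε₂ = true) ∧ UU tk ε₂ = el t) ∨ (¬ (ε₂ = true) ∧ UU tk ε₂ = 1) := by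
    unfold UU
    rcases ε₂ with _ | _ <;> simp [ht']
  have hEH : E ⊆ Hs 1 t := fun z hz => ((TT_t ht _ _ z).mp hz).1
  have htrH : ∀ g, tr g (Hs 1 t) = Hs g t := fun g => by rw [tr_Hs, mul_one]
  have h1 : (tr p' E ∩ B).Finite := by
    refine (finite_dirs p B {s | (Hs p s ∩ B).Finite} (fun s hs => hs)).subset ?_
    rintro z ⟨hz, hzB⟩
    refine ⟨hzB, ?_⟩
    have hz1 : p'⁻¹ * z ∈ TT t (ε₁ = true) (ε₂ = true) t := hz
    rw [TT_t ht] at hz1
    obtain ⟨hz1, hz2, hz3⟩ := hz1
    rw [← mem_Hs_mul, ← hp] at hz2 hz3
    by_cases hzp : z = p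
    · exact Or.inl hzp
    right
    obtain ⟨s, hs⟩ := exists_dir hzp
    refine ⟨s, ?_, hs⟩
    have hzt : z ∈ Hs p' t := by
      have := (mem_Hs_mul (h := p') (p := 1) (z := z) (s := t)).mpr hz1
      rwa [mul_one] at this
    have hsne : s ≠ fl t := by
      rintro rfl
      rw [hp] at hs
      rw [mem_Hs_flip] at hzt
      exact hzt hs
    by_cases hsA : s = A
    · subst hsA
      rcases hpure A hsne with h | h
      · exact h
      · exfalso
        apply hz2
        exact ⟨by rw [hε₁]; simpa using h, hs⟩
    by_cases hsA' : s = A'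
    · subst hsA'
      rcases hpure A' hsne with h | h
      · exact h
      · exfalso
        apply hz3
        exact ⟨by rw [hε₂]; simpa using h, hs⟩
    · refine hL s ?_ hsne
      by_contra hcon
      rcases not_isL hcon with h | h
      · exact hsA h
      · exact hsA' h
  have h2 : (tr p' (Hs 1 t \ E) \ B).Finite := by
    have hf : ((if ε₁ then Hs p A \ B else ∅) ∪ (if ε₂ then Hs p A' \ B else ∅)).Finite := by
      refine Set.Finite.union ?_ ?_
      · by_cases h : ε₁ = true
        · rw [if_pos h]
          rw [hε₁] at h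
          simpa using h
        · rw [if_neg h]; exact Set.finite_empty
      · by_cases h : ε₂ = true
        · rw [if_pos h]
          rw [hε₂] at h
          simpa using h
        · rw [if_neg h]; exact Set.finite_empty
    refine hf.subset ?_
    rintro z ⟨⟨hz1, hz2⟩, hzB⟩
    have hz3 : ¬ (p'⁻¹ * z ∈ TT t (ε₁ = true) (ε₂ = true) t) := hz2
    rw [TT_t ht, ← mem_Hs_mul (p := el t), ← mem_Hs_mul (p := el t), ← hp] at hz3
    have hz4 : (ε₁ = true ∧ z ∈ Hs p A) ∨ (ε₂ = true ∧ z ∈ Hs p A') := by
      by_contra hcon
      push Not at hcon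
      apply hz3
      exact ⟨hz1, fun h => hcon.1 h.1 h.2, fun h => hcon.2 h.1 h.2⟩
    rcases hz4 with ⟨h, h'⟩ | ⟨h, h'⟩
    · left
      rw [if_pos h]
      exact ⟨h', hzB⟩
    · right
      rw [if_pos h]
      exact ⟨h', hzB⟩
  have hdec : ∀ g, Cross (tr g E) B → Cross (Hs g t) B := by
    intro g hg
    rw [← htrH g]
    exact dec hN hEH p' h1 h2 (by rw [htrH]; exact hx) g hg
  have hnot : ¬ Cross (tr p' E) B := fun h => h.1 h1
  -- the injection
  let c : Option κ × Bool → FreeGroup (Option κ) := fun s =>
    if s = A then UU tk ε₁ else if s = A' then UU tk ε₂ else 1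
  have hmaps : ∀ x ∈ Cr (α ⁻¹' B), ((α x.1 * c x.2, x.2) : FreeGroup (Option κ) × _) ∈
      Cr B \ {(p', t)} := by
    rintro ⟨g, s⟩ hgs
    have hgs' : Cross (Hs g s) (α ⁻¹' B) := hgs
    have e1 : Hs g s = α ⁻¹' (tr (α g) (TT t (ε₁ = true) (ε₂ = true) s)) := by
      ext z
      rw [Set.mem_preimage, hα, ht', mvT_Hs]
    rw [e1, cross_pre] at hgs'
    simp only
    by_cases hsA : s = A
    · subst hsA
      have e2 : TT t (ε₁ = true) (ε₂ = true) A = Hs (UU tk ε₁) A := by
        ext z; exact TT_A ht _ _ hU z
      rw [e2, tr_Hs] at hgs'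
      refine ⟨?_, ?_⟩
      · show Cross (Hs (α g * c A) A) B
        simp only [c, if_true]
        exact hgs'
      · intro h
        simp only [Set.mem_singleton_iff, Prod.mk.injEq] at h
        exact ht.ne_A h.2.symm
    by_cases hsA' : s = A'
    · subst hsA'
      have e2 : TT t (ε₁ = true) (ε₂ = true) A' = Hs (UU tk ε₂) A' := by
        ext z; exact TT_A' ht _ _ hV z
      rw [e2, tr_Hs] at hgs'
      refine ⟨?_, ?_⟩
      · show Cross (Hs (α g * c A') A') B
        simp only [c, A_ne_A'.symm, if_false, if_true]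
        exact hgs'
      · intro h
        simp only [Set.mem_singleton_iff, Prod.mk.injEq] at h
        exact ht.ne_A' h.2.symm
    have hc : c s = 1 := by simp only [c, hsA, hsA', if_false]
    rw [hc, mul_one]
    by_cases hst : s = t
    · subst hst
      refine ⟨hdec _ hgs', ?_⟩
      intro h
      simp only [Set.mem_singleton_iff, Prod.mk.injEq, and_true] at h
      rw [h] at hgs'
      exact hnot hgs'
    by_cases hsf : s = fl t
    · subst hsf
      refine ⟨?_, ?_⟩
      · have e2 : tr (α g) (TT t (ε₁ = true) (ε₂ = true) (fl t)) = (tr (α g * (el t)⁻¹) E)ᶜ := by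
          ext z
          have h3 := TT_flt ht (ε₁ = true) (ε₂ = true) ((α g)⁻¹ * z)
          show (α g)⁻¹ * z ∈ TT t (ε₁ = true) (ε₂ = true) (fl t) ↔
            ¬ ((α g * (el t)⁻¹)⁻¹ * z ∈ TT t (ε₁ = true) (ε₂ = true) t)
          rw [h3, mul_inv_rev, inv_inv, mul_assoc]
        rw [e2, cross_compl_left] at hgs'
        have h3 := (hdec _ hgs').compl_left
        rw [Hs_compl, inv_mul_cancel_right] at h3
        exact h3
      · intro h
        simp only [Set.mem_singleton_iff, Prod.mk.injEq] at h
        exact fl_ne t h.2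
    · have e2 : TT t (ε₁ = true) (ε₂ = true) s = Hs 1 s := by
        ext z; exact TT_other _ _ hsA hsA' hst hsf z
      rw [e2, tr_Hs, mul_one] at hgs'
      refine ⟨hgs', ?_⟩
      intro h
      simp only [Set.mem_singleton_iff, Prod.mk.injEq] at h
      exact hst h.2
  have hinj : Set.InjOn (fun x : FreeGroup (Option κ) × (Option κ × Bool) =>
      ((α x.1 * c x.2, x.2) : FreeGroup (Option κ) × (Option κ × Bool))) (Cr (α ⁻¹' B)) := by
    rintro ⟨g, s⟩ _ ⟨g', s'⟩ _ h
    simp only [Prod.mk.injEq] at h
    obtain ⟨h3, rfl⟩ := h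
    have h4 := α.injective (mul_right_cancel h3)
    rw [h4]
  have hfin := Cr_finite hAI
  calc (Cr (α ⁻¹' B)).ncard ≤ (Cr B \ {(p', t)}).ncard :=
        Set.ncard_le_ncard_of_injOn _ hmaps hinj (hfin.subset Set.sdiff_subset)
    _ < (Cr B).ncard := Set.ncard_sdiff_singleton_lt_of_mem hx hfin

/-- powers of a letter eventually extend a word -/
theorem tail (x : Option κ × Bool) : ∀ (n : ℕ) (p : FreeGroup (Option κ)), p.toWord.length ≤ n →
    ∃ K, ∀ k, (p * el x ^ (K + k)).toWord = (p * el x ^ K).toWord ++ List.replicate k x := by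
  intro n
  induction n with
  | zero =>
    intro p hp
    have : p = 1 := by
      rw [← toWord_eq_nil_iff]
      exact List.length_eq_zero_iff.mp (by omega)
    subst this
    refine ⟨0, fun k => ?_⟩
    rw [one_mul, zero_add, toWord_el_pow, pow_zero, one_mul, toWord_one, List.nil_append]
  | succ n ih =>
    intro p hp
    rcases mul_el_cases p x with h | h
    · refine ⟨0, fun k => ?_⟩
      rw [zero_add, pow_zero, mul_one]
      have hred : IsReduced (p.toWord ++ List.replicate k x) := by
        rcases k with _ | k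
        · simpa using isReduced_toWord
        · have h1 : IsReduced (p.toWord ++ [x]) := by rw [← h]; exact isReduced_toWord
          have h2 : IsReduced ([x] ++ List.replicate k x) := by
            show IsReduced (List.replicate (k + 1) x)
            unfold FreeGroup.IsReduced
            exact List.isChain_replicate_of_rel _ (fun _ => rfl)
          have h3 := IsReduced.append_overlap (L₁ := p.toWord) (L₂ := [x])
            (L₃ := List.replicate k x) h1 h2 (by simp)
          rw [List.replicate_succ]
          simpa using h3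
      have e : p * el x ^ k = mk (p.toWord ++ List.replicate k x) := by
        rw [← mul_mk, mk_toWord]
        congr 1
        rw [← mk_toWord (x := el x ^ k), toWord_el_pow]
      rw [e, toWord_mk, hred.reduce_eq]
    · have hlen : (p * el x).toWord.length ≤ n := by
        have := congrArg List.length h
        rw [List.length_append, List.length_singleton] at this
        omega
      obtain ⟨K, hK⟩ := ih (p * el x) hlen
      refine ⟨K + 1, fun k => ?_⟩
      have h1 := hK k
      rw [mul_assoc, mul_assoc, ← pow_succ', ← pow_succ'] at h1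
      have e : K + 1 + k = K + k + 1 := by ring
      rw [e]
      exact h1

theorem leafA [Nonempty κ] {B : Set (FreeGroup (Option κ))} (hAI : AI B) (hN : Nested B)
    (p' : FreeGroup (Option κ)) (d : Option κ × Bool) (hd' : ¬ isL d)
    (hx : Cross (Hs p' d) B) (hpos : (Hs (p' * el d) d \ B).Finite)
    (hL : ∀ s, isL s → (Hs (p' * el d) s ∩ B).Finite) :
    ∀ s, isL s → (Hs p' s \ B).Finite := by
  obtain ⟨k0⟩ := ‹Nonempty κ›
  set s0 : Option κ × Bool := (some k0, true) with hs0
  have hs0L : isL s0 := by simp [isL, hs0]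
  have hs0d : s0 ≠ fl d := by
    intro h
    rw [h] at hs0L
    exact hd' hs0L
  set p := p' * el d with hp
  set h := p' * el d * p'⁻¹ with hh
  have hhp' : h * p' = p := by rw [hh, hp]; group
  have hhp : h * p = p * el d := by rw [hh, hp]; group
  rcases hN h with n1 | n1 | n1 | n1
  · -- `hB ⊆ B`
    exfalso
    -- the vertices `q k = p d^{-k}`
    set q : ℕ → FreeGroup (Option κ) := fun k => p * el (fl d) ^ k with hq
    have hhq : ∀ k, h * q (k + 1) = q k := by
      intro k
      simp only [hq]
      rw [pow_succ', el_fl, hh, hp]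
      group
    have claim : ∀ k s, isL s → (Hs (q k) s ∩ B).Finite := by
      intro k
      induction k with
      | zero =>
        intro s hs
        simp only [hq, pow_zero, mul_one]
        exact hL s hs
      | succ k ih =>
        intro s hs
        rw [← tr_fin h, tr_inter, tr_Hs, hhq]
        refine (ih s hs).subset ?_
        rintro z ⟨hz1, hz2⟩
        exact ⟨hz1, n1 z hz2⟩
    have hstep : ∀ k, (Hs (q (k + 1)) (fl d) ∩ B).Finite → (Hs (q k) (fl d) ∩ B).Finite := by
      intro k hk
      refine (finite_dirs (q (k + 1)) B {s | (Hs (q (k + 1)) s ∩ B).Finite}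
        (fun s hs => hs)).subset ?_
      rintro z ⟨hz1, hz2⟩
      refine ⟨hz2, ?_⟩
      by_cases hzq : z = q (k + 1)
      · exact Or.inl hzq
      right
      obtain ⟨s, hs⟩ := exists_dir hzq
      refine ⟨s, ?_, hs⟩
      by_cases hsL : isL s
      · exact claim (k + 1) s hsL
      · have hsd : s = fl d := by
          have h1 : s ≠ d := by
            rintro rfl
            rw [mem_Hs_flip] at hz1
            apply hz1
            have e : q (k + 1) = q k * el (fl s) := by
              show p * el (fl s) ^ (k + 1) = p * el (fl s) ^ k * el (fl s)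
              rw [pow_succ, ← mul_assoc]
            rw [← e, fl_fl]
            exact hs
          rcases not_isL hsL with e | e <;> rcases not_isL hd' with e' | e'
          · exact absurd (e.trans e'.symm) h1
          · rw [e, e', fl_A']
          · rw [e, e', fl_A]
          · exact absurd (e.trans e'.symm) h1
        rw [hsd]
        exact hk
    -- far out the direction is pure
    obtain ⟨N, hpure⟩ := hAI.pure
    obtain ⟨K, hK⟩ := tail (fl d) _ p le_rfl
    have hfar : (Hs (q (K + N)) (fl d) ∩ B).Finite := by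
      have h1 := hpure (q (K + N)) (fl d) (by
        simp only [hq]
        rw [hK N, List.length_append, List.length_replicate]
        omega) (by
        simp only [hq]
        rw [mul_assoc, ← pow_succ, add_assoc, hK, hK, List.replicate_succ', List.append_assoc])
      by_cases hB : q (K + N) ∈ B
      · exfalso
        have h2 : (Hs (q (K + N + 1)) s0).Infinite := Hs_infinite _ _
        apply h2
        refine (claim (K + N + 1) s0 hs0L).subset ?_
        intro z hz
        refine ⟨hz, ?_⟩
        have e : q (K + N + 1) = q (K + N) * el (fl d) := by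
          show p * el (fl d) ^ (K + N + 1) = p * el (fl d) ^ (K + N) * el (fl d)
          rw [pow_succ, ← mul_assoc]
        have h3 : z ∈ Hs (q (K + N)) (fl d) := by
          apply Hs_sub (s' := s0)
          · rw [fl_fl]
            intro h
            rw [h] at hs0L
            exact hd' hs0L
          · rw [← e]; exact hz
        exact (h1 z h3).mpr hB
      · refine Set.finite_empty.subset ?_
        rintro z ⟨hz1, hz2⟩
        exact (hB ((h1 z hz1).mp hz2)).elim
    have hdown : ∀ m, (Hs (q m) (fl d) ∩ B).Finite → (Hs (q 0) (fl d) ∩ B).Finite := by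
      intro m
      induction m with
      | zero => exact fun h => h
      | succ m ih => exact fun h => ih (hstep m h)
    have h0 := hdown _ hfar
    simp only [hq, pow_zero, mul_one] at h0
    apply hx.2.2.1
    rw [Hs_compl]
    exact h0
  · -- `B ⊆ hB`
    exfalso
    have h1 : (Hs (p * el d) s0 ∩ tr h B).Finite := by
      have := (tr_fin h).mpr (hL s0 hs0L)
      rwa [tr_inter, tr_Hs, hhp] at this
    have h2 : (Hs (p * el d) s0).Infinite := Hs_infinite _ _
    apply h2
    refine (h1.union hpos).subset ?_
    intro z hz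
    have hz2 : z ∈ Hs p d := Hs_sub hs0d hz
    by_cases hzB : z ∈ B
    · exact Or.inl ⟨hz, n1 z hzB⟩
    · exact Or.inr ⟨hz2, hzB⟩
  · -- disjoint
    exfalso
    have h1 : (Hs (p * el d) d \ tr h B).Finite := by
      have := (tr_fin h).mpr hpos
      rwa [tr_diff, tr_Hs, hhp] at this
    have h2 : (Hs (p * el d) d).Infinite := Hs_infinite _ _
    apply h2
    refine (h1.union hpos).subset ?_
    intro z hz
    have hz2 : z ∈ Hs p d := Hs_sub (fl_ne d).symm hz
    by_cases hzB : z ∈ B
    · exact Or.inl ⟨hz, n1 z hzB⟩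
    · exact Or.inr ⟨hz2, hzB⟩
  · -- the union is everything
    intro s hs
    rw [← tr_fin h, tr_diff, tr_Hs, hhp']
    refine (hL s hs).subset ?_
    rintro z ⟨hz1, hz2⟩
    exact ⟨hz1, (n1 z).resolve_right hz2⟩

/-- enough patterns in `w` -/
def Rich (w : FreeGroup (Option κ)) : Prop :=
  (∀ s s' : Option κ × Bool, isL s → isL s' → s ≠ s' → Pat w [fl s, s']) ∧
    ∃ s s' : Option κ × Bool, isL s ∧ isL s' ∧ Pat w [fl s, A, s']

theorem Rich.pA {w : FreeGroup (Option κ)} (h : Rich w) :
    ∃ s : Option κ × Bool, isL s ∧ Pat w [fl s, A] := by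
  obtain ⟨-, s, s', hs, -, h⟩ := h
  exact ⟨s, hs, h.mono ⟨[], [s'], by simp⟩⟩

theorem Rich.pA' {w : FreeGroup (Option κ)} (h : Rich w) :
    ∃ s : Option κ × Bool, isL s ∧ Pat w [A, s] := by
  obtain ⟨-, s, s', -, hs', h⟩ := h
  exact ⟨s', hs', h.mono ⟨[fl s], [], by simp⟩⟩

theorem not_both {p : FreeGroup (Option κ)} {s : Option κ × Bool}
    {B : Set (FreeGroup (Option κ))} (h1 : (Hs p s ∩ B).Finite) (h2 : (Hs p s \ B).Finite) :
    False := by
  apply Hs_infinite p s
  refine (h1.union h2).subset ?_
  intro z hz
  by_cases hzB : z ∈ B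
  · exact Or.inl ⟨hz, hzB⟩
  · exact Or.inr ⟨hz, hzB⟩

/-- all directions at `p` are pure -/
theorem final [Nonempty κ] {B : Set (FreeGroup (Option κ))} {w : FreeGroup (Option κ)}
    (hw : Rich w) (hP : Posi w B) (hinf : B.Infinite) (hcoinf : Bᶜ.Infinite)
    (p : FreeGroup (Option κ))
    (hpure : ∀ s, (Hs p s ∩ B).Finite ∨ (Hs p s \ B).Finite) :
    ∃ q, (B \ Hs q A).Finite ∧ (Hs q A \ B).Finite := by
  obtain ⟨k0⟩ := ‹Nonempty κ›
  set s0 : Option κ × Bool := (some k0, true) with hs0
  have hs0L : isL s0 := by simp [isL, hs0]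
  obtain ⟨s1, hs1, hpat1⟩ := hw.pA
  obtain ⟨s2, hs2, hpat2⟩ := hw.pA'
  rcases hpure s0 with hneg | hpos
  · -- all directions in `L` are negative
    have hLneg : ∀ s, isL s → (Hs p s ∩ B).Finite := by
      intro s hs
      rcases hpure s with h | h
      · exact h
      · exfalso
        have hne : s ≠ s0 := by
          rintro rfl
          exact not_both hneg h
        exact noline hP (hw.1 s s0 hs hs0L hne) h hneg
    have hA' : (Hs p A' ∩ B).Finite := by
      rcases hpure A' with h | h
      · exact h
      · exfalso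
        exact noline hP (s := A') (by rw [fl_A']; exact hpat2) h (hLneg _ hs2)
    refine ⟨p, ?_, ?_⟩
    · refine (finite_dirs p B {s | (Hs p s ∩ B).Finite} (fun s hs => hs)).subset ?_
      rintro z ⟨hz1, hz2⟩
      refine ⟨hz1, ?_⟩
      by_cases hzp : z = p
      · exact Or.inl hzp
      right
      obtain ⟨s, hs⟩ := exists_dir hzp
      refine ⟨s, ?_, hs⟩
      by_cases hsL : isL s
      · exact hLneg s hsL
      rcases not_isL hsL with rfl | rfl
      · exact absurd hs hz2
      · exact hA'
    · rcases hpure A with h | h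
      · exfalso
        apply hinf
        refine (finite_dirs p B {s | (Hs p s ∩ B).Finite} (fun s hs => hs)).subset ?_
        intro z hz
        refine ⟨hz, ?_⟩
        by_cases hzp : z = p
        · exact Or.inl hzp
        right
        obtain ⟨s, hs⟩ := exists_dir hzp
        refine ⟨s, ?_, hs⟩
        by_cases hsL : isL s
        · exact hLneg s hsL
        rcases not_isL hsL with rfl | rfl
        · exact h
        · exact hA'
      · exact h
  · -- all directions in `L` are positive
    have hLpos : ∀ s, isL s → (Hs p s \ B).Finite := by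
      intro s hs
      rcases hpure s with h | h
      · exfalso
        have hne : s0 ≠ s := by
          rintro rfl
          exact not_both h hpos
        exact noline hP (hw.1 s0 s hs0L hs hne) hpos h
      · exact h
    have hA : (Hs p A \ B).Finite := by
      rcases hpure A with h | h
      · exfalso
        exact noline hP hpat1 (hLpos _ hs1) h
      · exact h
    -- `B` is almost the complement of `Hs p A'`
    refine ⟨p * el A', ?_, ?_⟩
    · have e : B \ Hs (p * el A') A = Hs p A' ∩ B := by
        have h1 : (Hs p A')ᶜ = Hs (p * el A') A := by rw [Hs_compl, fl_A']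
        rw [← h1, Set.sdiff_compl, Set.inter_comm]
      rw [e]
      rcases hpure A' with h | h
      · exact h
      · exfalso
        apply hcoinf
        have hf := finite_dirs p Bᶜ {s | (Hs p s \ B).Finite} (fun s hs => by
          rw [← Set.sdiff_eq]; exact hs)
        refine hf.subset ?_
        intro z hz
        refine ⟨hz, ?_⟩
        by_cases hzp : z = p
        · exact Or.inl hzp
        right
        obtain ⟨s, hs⟩ := exists_dir hzp
        refine ⟨s, ?_, hs⟩
        by_cases hsL : isL s
        · exact hLpos s hsL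
        rcases not_isL hsL with rfl | rfl
        · exact hA
        · exact h
    · have hf := finite_dirs p Bᶜ {s | (Hs p s \ B).Finite} (fun s hs => by
        rw [← Set.sdiff_eq]; exact hs)
      refine hf.subset ?_
      rintro z ⟨hz1, hz2⟩
      refine ⟨hz2, ?_⟩
      have h1 : (Hs p A')ᶜ = Hs (p * el A') A := by rw [Hs_compl, fl_A']
      rw [← h1] at hz1
      by_cases hzp : z = p
      · exact Or.inl hzp
      right
      obtain ⟨s, hs⟩ := exists_dir hzp
      refine ⟨s, ?_, hs⟩
      by_cases hsL : isL s
      · exact hLpos s hsL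
      rcases not_isL hsL with rfl | rfl
      · exact hA
      · exact absurd hs hz1

/-- the assumptions on `B` -/
structure Adm (w : FreeGroup (Option κ)) (B : Set (FreeGroup (Option κ))) : Prop where
  ai : AI B
  nested : Nested B
  inf : B.Infinite
  coinf : Bᶜ.Infinite
  posi : Posi w B

theorem Adm.pre {w : FreeGroup (Option κ)} {B : Set (FreeGroup (Option κ))} (h : Adm w B)
    (α : FreeGroup (Option κ) ≃* FreeGroup (Option κ)) : Adm (α.symm w) (α ⁻¹' B) where
  ai := by
    intro x
    have h1 := (inf_pre α _).mpr (h.ai (α x))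
    refine h1.subset ?_
    intro z hz
    simp only [Set.mem_ofPred_eq, Set.mem_preimage, _root_.map_mul] at hz ⊢
    exact hz
  nested := by
    intro g
    have key : ∀ z, g⁻¹ * z ∈ α ⁻¹' B ↔ (α g)⁻¹ * α z ∈ B := by
      intro z
      rw [Set.mem_preimage, _root_.map_mul, _root_.map_inv]
    rcases h.nested (α g) with h1 | h1 | h1 | h1
    · exact Or.inl fun z hz => h1 _ ((key z).mp hz)
    · exact Or.inr (Or.inl fun z hz => (key z).mpr (h1 _ hz))
    · exact Or.inr (Or.inr (Or.inl fun z hz hz' => h1 _ hz ((key z).mp hz')))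
    · refine Or.inr (Or.inr (Or.inr fun z => ?_))
      rcases h1 (α z) with h2 | h2
      · exact Or.inl h2
      · exact Or.inr ((key z).mpr h2)
  inf := (not_congr (inf_pre α B)).mpr h.inf
  coinf := (not_congr (inf_pre α Bᶜ)).mpr h.coinf
  posi := by
    intro c hc ⟨h1, h2⟩
    refine h.posi (α c) ?_ ⟨?_, ?_⟩
    · have := α.toMonoidHom.map_isConj hc
      simpa using this
    · filter_upwards [h1] with n hn
      have : α (c⁻¹ ^ n) ∈ B := hn
      rwa [_root_.map_pow, _root_.map_inv] at this
    · filter_upwards [h2] with n hn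
      have : α (c ^ n) ∉ B := hn
      rwa [_root_.map_pow] at this

theorem not_allneg {B : Set (FreeGroup (Option κ))} {p' : FreeGroup (Option κ)}
    {t : Option κ × Bool} (hx : (Hs p' t ∩ B).Infinite)
    (h : ∀ s, s ≠ fl t → (Hs (p' * el t) s ∩ B).Finite) : False := by
  apply hx
  refine (finite_dirs (p' * el t) B {s | (Hs (p' * el t) s ∩ B).Finite} (fun s hs => hs)).subset ?_
  rintro z ⟨hz1, hz2⟩
  refine ⟨hz2, ?_⟩
  by_cases hzp : z = p' * el t
  · exact Or.inl hzp
  right
  obtain ⟨s, hs⟩ := exists_dir hzp
  refine ⟨s, h s ?_, hs⟩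
  rintro rfl
  rw [mem_Hs_flip] at hz1
  exact hz1 hs

/-- **Main theorem.** -/
theorem main [Nonempty κ] (𝒲 : Set (FreeGroup (Option κ))) (hrich : ∀ w ∈ 𝒲, Rich w)
    (hcl : ∀ w ∈ 𝒲, ∀ u v : FreeGroup κ, (mv u v).symm w ∈ 𝒲) :
    ∀ (n : ℕ) (B : Set (FreeGroup (Option κ))) (w : FreeGroup (Option κ)), w ∈ 𝒲 → Adm w B →
      (Cr B).ncard ≤ n → ∃ q, (B \ Hs q A).Finite ∧ (Hs q A \ B).Finite := by
  intro n
  induction n using Nat.strong_induction_on with
  | _ n ih =>
  intro B w hw hB hcard
  have hR := hrich w hw
  obtain ⟨N, hN⟩ := hB.ai.pure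
  -- maximal mixed direction
  set Mx : Set (FreeGroup (Option κ) × (Option κ × Bool)) :=
    {x | (x.1 * el x.2).toWord = x.1.toWord ++ [x.2] ∧ (Hs x.1 x.2 ∩ B).Infinite ∧
      (Hs x.1 x.2 \ B).Infinite} with hMx
  have hMfin : Mx.Finite := by
    have hsub : Mx ⊆ {z : FreeGroup (Option κ) | z.toWord.length ≤ N} ×ˢ
        (Set.univ : Set (Option κ × Bool)) := by
      rintro ⟨g, s⟩ ⟨h1, h2, h3⟩
      refine ⟨?_, Set.mem_univ _⟩
      simp only [Set.mem_ofPred_eq]
      by_contra hlen
      push Not at hlen
      have h4 := hN g s (by omega) h1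
      by_cases hgB : g ∈ B
      · apply h3
        refine Set.finite_empty.subset ?_
        rintro z ⟨hz1, hz2⟩
        exact (hz2 ((h4 z hz1).mpr hgB)).elim
      · apply h2
        refine Set.finite_empty.subset ?_
        rintro z ⟨hz1, hz2⟩
        exact (hgB ((h4 z hz1).mp hz2)).elim
    exact ((finite_ball N).prod Set.finite_univ).subset hsub
  rcases Set.eq_empty_or_nonempty Mx with hemp | hne
  · -- all directions at `1` are pure
    apply final hR hB.posi hB.inf hB.coinf 1
    intro s
    by_contra hcon
    push Not at hcon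
    have : ((1 : FreeGroup (Option κ)), s) ∈ Mx := by
      refine ⟨?_, hcon.1, hcon.2⟩
      simp only [one_mul, toWord_one, List.nil_append]
      have := toWord_el_pow s 1
      simpa using this
    rw [hemp] at this
    exact this
  obtain ⟨⟨p', t⟩, hpt, hmax⟩ := Set.exists_max_image Mx (fun x => x.1.toWord.length) hMfin hne
  obtain ⟨hext, hmix1, hmix2⟩ := hpt
  simp only at hext hmix1 hmix2 hmax
  set p := p' * el t with hp
  have hpure : ∀ s, s ≠ fl t → (Hs p s ∩ B).Finite ∨ (Hs p s \ B).Finite := by
    intro s hs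
    by_contra hcon
    push Not at hcon
    have hmem : (p, s) ∈ Mx := by
      refine ⟨?_, hcon.1, hcon.2⟩
      simp only
      rcases mul_el_cases p s with h1 | h1
      · exact h1
      · exfalso
        rw [hext] at h1
        have h2 := (List.append_inj' h1 rfl).2
        simp only [List.cons.injEq, and_true] at h2
        exact hs (by rw [h2, fl_fl])
    have := hmax _ hmem
    simp only at this
    rw [hext, List.length_append, List.length_singleton] at this
    omega
  -- is the edge crossing?
  by_cases hcr : Cross (Hs p' t) B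
  swap
  · apply final hR hB.posi hB.inf hB.coinf p
    intro s
    by_cases hs : s = fl t
    · subst hs
      rw [hp, ← Hs_compl]
      by_contra hcon
      push Not at hcon
      exact hcr ⟨hmix1, hmix2, hcon.1, hcon.2⟩
    · exact hpure s hs
  -- signs of the directions in `L`
  have hsame : ∀ s s', isL s → isL s' → s ≠ fl t → s' ≠ fl t → (Hs p s \ B).Finite →
      (Hs p s' \ B).Finite := by
    intro s s' hs hs' hst hst' h
    rcases hpure s' hst' with h' | h'
    · exfalso
      have hne : s ≠ s' := by
        rintro rfl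
        exact not_both h' h
      exact noline hB.posi (hR.1 s s' hs hs' hne) h h'
    · exact h'
  by_cases htL : isL t
  · -- move
    obtain ⟨tk, htk⟩ : ∃ tk : κ × Bool, t = (some tk.1, tk.2) := by
      rcases t with ⟨_ | k, b⟩
      · exact absurd rfl htL
      · exact ⟨(k, b), rfl⟩
    have hmove : ∃ ε₁ ε₂ : Bool, (Cr ((mvT tk ε₁ ε₂) ⁻¹' B)).ncard < (Cr B).ncard := by
      rcases hpure t (fl_ne t).symm with hneg | hpos
      · refine leafL hB.ai hB.nested p' tk t htk hcr hpure ?_
        intro s hs hst
        rcases hpure s hst with h | h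
        · exact h
        · exact absurd (hsame s t hs htL hst (fl_ne t).symm h) (fun h' => not_both hneg h')
      · have hAIc : AI Bᶜ := by
          intro x
          refine (hB.ai x).subset ?_
          intro z hz
          simp only [Set.mem_ofPred_eq, Set.mem_compl_iff, not_iff_not] at hz ⊢
          exact hz
        have hCr : ∀ X : Set (FreeGroup (Option κ)), Cr Xᶜ = Cr X := by
          intro X
          ext x
          exact cross_compl_right
        obtain ⟨ε₁, ε₂, hlt⟩ := leafL hAIc hB.nested.compl p' tk t htk hcr.compl_right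
          (fun s hs => by
            rcases hpure s hs with h | h
            · right; rwa [Set.sdiff_compl]
            · left; rwa [← Set.sdiff_eq]) (fun s hs hst => by
            rw [← Set.sdiff_eq]
            exact hsame t s htL hs (fl_ne t).symm hst hpos)
        refine ⟨ε₁, ε₂, ?_⟩
        rwa [Set.preimage_compl, hCr, hCr] at hlt
    obtain ⟨ε₁, ε₂, hlt⟩ := hmove
    set α := mvT tk ε₁ ε₂ with hα
    obtain ⟨q, hq1, hq2⟩ := ih _ (lt_of_lt_of_le hlt hcard) (α ⁻¹' B) (α.symm w)
      (hcl w hw _ _) (hB.pre α) le_rfl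
    have hU : ((ε₁ = true) ∧ UU tk ε₁ = el t) ∨ (¬ (ε₁ = true) ∧ UU tk ε₁ = 1) := by
      unfold UU
      rcases ε₁ with _ | _ <;> simp [htk]
    have hpre : Hs q A = α ⁻¹' (Hs (α q * UU tk ε₁) A) := by
      ext z
      rw [Set.mem_preimage, ← mvT_Hs tk ε₁ ε₂ A q z, ← tr_Hs]
      have e2 : TT t (ε₁ = true) (ε₂ = true) A = Hs (UU tk ε₁) A := by
        ext z; exact TT_A htL _ _ hU z
      rw [← htk, e2]
    refine ⟨α q * UU tk ε₁, ?_, ?_⟩
    · rw [← inf_pre α]
      rw [hpre] at hq1
      exact hq1
    · rw [← inf_pre α]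
      rw [hpre] at hq2
      exact hq2
  · -- `t = a^{±1}`: impossible
    exfalso
    have hLt : ∀ s, isL s → s ≠ fl t := by
      rintro s hs rfl
      exact htL hs
    obtain ⟨k0⟩ := ‹Nonempty κ›
    set s0 : Option κ × Bool := (some k0, true) with hs0
    have hs0L : isL s0 := by simp [isL, hs0]
    obtain ⟨-, s1, s2, hs1, hs2, hpat⟩ := hR
    have hpatA : Pat w [fl s1, A] := hpat.mono ⟨[], [s2], by simp⟩
    have hpatA' : Pat w [A, s2] := hpat.mono ⟨[fl s1], [], by simp⟩
    have htt : ∀ s, s ≠ fl t → isL s ∨ s = t := by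
      intro s hs
      by_cases hsL : isL s
      · exact Or.inl hsL
      right
      rcases not_isL hsL with e | e <;> rcases not_isL htL with e' | e'
      · rw [e, e']
      · rw [e, e', fl_A'] at hs; exact absurd rfl hs
      · rw [e, e', fl_A] at hs; exact absurd rfl hs
      · rw [e, e']
    rcases hpure s0 (hLt _ hs0L) with hneg | hpos
    · have hLneg : ∀ s, isL s → (Hs p s ∩ B).Finite := by
        intro s hs
        rcases hpure s (hLt s hs) with h | h
        · exact h
        · exact absurd (hsame s s0 hs hs0L (hLt _ hs) (hLt _ hs0L) h)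
            (fun h' => not_both hneg h')
      have htpos : (Hs p t \ B).Finite := by
        rcases hpure t (fl_ne t).symm with h | h
        · exfalso
          refine not_allneg hmix1 (fun s hs => ?_)
          rcases htt s hs with h' | rfl
          · exact hLneg s h'
          · exact h
        · exact h
      rcases not_isL htL with rfl | rfl
      · have h1 := leafA hB.ai hB.nested p' A htL hcr htpos hLneg
        exact noline3 hB.posi hpat (h1 s1 hs1) (hLneg s2 hs2)
      · exact noline hB.posi (s := A') (by rw [fl_A']; exact hpatA') htpos (hLneg s2 hs2)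
    · have hLpos : ∀ s, isL s → (Hs p s \ B).Finite := fun s hs =>
        hsame s0 s hs0L hs (hLt _ hs0L) (hLt _ hs) hpos
      have htneg : (Hs p t ∩ B).Finite := by
        rcases hpure t (fl_ne t).symm with h | h
        · exact h
        · exfalso
          refine not_allneg (B := Bᶜ) (p' := p') (t := t) (by rwa [← Set.sdiff_eq]) (fun s hs => ?_)
          rw [← Set.sdiff_eq]
          rcases htt s hs with h' | rfl
          · exact hLpos s h'
          · exact h
      rcases not_isL htL with rfl | rfl
      · exact noline hB.posi hpatA (hLpos s1 hs1) htneg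
      · have hAIc : AI Bᶜ := by
          intro x
          refine (hB.ai x).subset ?_
          intro z hz
          simp only [Set.mem_ofPred_eq, Set.mem_compl_iff, not_iff_not] at hz ⊢
          exact hz
        have h1 := leafA hAIc hB.nested.compl p' A' htL hcr.compl_right
          (by rwa [Set.sdiff_compl]) (fun s hs => by rw [← Set.sdiff_eq]; exact hLpos s hs)
        have h2 := h1 s2 hs2
        rw [Set.sdiff_compl] at h2
        refine noline3 hB.posi (p := p) hpat (hLpos s1 hs1) ?_
        have e : p * el A = p' := by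
          rw [hp, mul_assoc, ← fl_A', el_fl, mul_inv_cancel, mul_one]
        rw [e]
        exact h2

end

end Pool.Agent.V1119.PP
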