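import Mathlib
import Pool.Agent.V1119.PP.Main

/-!
# The words
-/

set_option autoImplicit false
set_option linter.unusedSectionVars false

namespace Pool.Agent.V1119.PP

open FreeGroup Filter

section
variable {κ : Type} [DecidableEq κ]

theorem connect [Nontrivial κ] (l : List (κ × Bool)) (hl : IsReduced l) (x : κ × Bool) :
    ∃ m, IsReduced (l ++ m ++ [x]) := by
  by_cases h : IsReduced (l ++ [x])
  · exact ⟨[], by simpa using h⟩
  · obtain ⟨b, hb⟩ := exists_ne x.1
    refine ⟨[(b, true)], ?_⟩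
    unfold FreeGroup.IsReduced at *
    rw [List.isChain_append] at h ⊢
    have hlast : ∀ y ∈ l.getLast?, y.1 = x.1 := by
      intro y hy
      by_contra hne
      apply h
      refine ⟨hl, by simp, fun y' hy' z hz hyz => ?_⟩
      exfalso
      have e1 : y' = y := by
        simp only [Option.mem_def] at hy hy'
        rw [hy] at hy'
        exact (Option.some.inj hy').symm
      have e2 : z = x := by simpa using hz.symm
      subst e1 e2
      exact hne hyz
    refine ⟨?_, by simp, fun y hy z hz hyz => ?_⟩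
    · rw [List.isChain_append]
      refine ⟨hl, by simp, fun y hy z hz hyz => ?_⟩
      exfalso
      have e2 : z = (b, true) := by simpa using hz.symm
      subst e2
      exact hb (hyz.symm.trans (hlast y hy))
    · exfalso
      have e1 : y = (b, true) := by simpa using hy.symm
      have e2 : z = x := by simpa using hz.symm
      subst e1 e2
      exact hb hyz

/-- a reduced word with given first and last letter, containing a given word -/
theorem exists_word [Nontrivial κ] (x : κ × Bool) (M : List (κ × Bool)) (hM : IsReduced M)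
    (hne : M ≠ []) : ∃ u : FreeGroup κ, u.toWord.head? = some x ∧ u.toWord.getLast? = some x ∧
      M <:+: u.toWord := by
  rcases M with _ | ⟨z, M⟩
  · exact absurd rfl hne
  obtain ⟨m, hm⟩ := connect [x] (by simp [FreeGroup.IsReduced]) z
  have h1 : IsReduced ([x] ++ m ++ ([z] ++ M)) := by
    have := IsReduced.append_overlap (L₁ := [x] ++ m) (L₂ := [z]) (L₃ := M) hm hM (by simp)
    simpa using this
  obtain ⟨m', hm'⟩ := connect _ h1 x
  refine ⟨mk ([x] ++ m ++ ([z] ++ M) ++ m' ++ [x]), ?_, ?_, ?_⟩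
  · rw [toWord_mk, hm'.reduce_eq]; simp
  · rw [toWord_mk, hm'.reduce_eq, List.getLast?_concat]
  · rw [toWord_mk, hm'.reduce_eq]
    exact ⟨[x] ++ m, m' ++ [x], by simp⟩

theorem cat {g h : FreeGroup κ} (hgh : ∀ x ∈ g.toWord.getLast?, ∀ y ∈ h.toWord.head?, y ≠ fl x) :
    (g * h).toWord = g.toWord ++ h.toWord := by
  have hred : IsReduced (g.toWord ++ h.toWord) := by
    have h1 := isReduced_toWord (x := g)
    have h2 := isReduced_toWord (x := h)
    unfold FreeGroup.IsReduced at *
    rw [List.isChain_append]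
    refine ⟨h1, h2, fun x hx y hy hxy => ?_⟩
    have := hgh x hx y hy
    rcases x with ⟨x1, x2⟩
    rcases y with ⟨y1, y2⟩
    simp only at hxy ⊢
    subst hxy
    cases x2 <;> cases y2 <;> simp_all [fl]
  conv_lhs => rw [← mk_toWord (x := g), ← mk_toWord (x := h)]
  rw [mul_mk, toWord_mk, hred.reduce_eq]

/-- one of three words survives multiplication on both sides -/
theorem survive (U : Fin 3 → FreeGroup κ) (x : Fin 3 → κ × Bool) (hx : Function.Injective x)
    (h1 : ∀ i, (U i).toWord.head? = some (x i)) (h2 : ∀ i, (U i).toWord.getLast? = some (x i))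
    (u v : FreeGroup κ) : ∃ i, (U i).toWord <:+: (v * U i * u).toWord := by
  -- the bad indices
  have hbad : ∃ i, (∀ y ∈ v.toWord.getLast?, x i ≠ fl y) ∧ (∀ y ∈ u.toWord.head?, y ≠ fl (x i)) := by
    by_contra hcon
    push Not at hcon
    have key : ∀ i, (∃ y ∈ v.toWord.getLast?, x i = fl y) ∨
        (∃ y ∈ u.toWord.head?, y = fl (x i)) := by
      intro i
      by_cases h : ∀ y ∈ v.toWord.getLast?, x i ≠ fl y
      · exact Or.inr (hcon i h)
      · push Not at h
        exact Or.inl h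
    -- pigeonhole
    have hv : ∀ i j, (∃ y ∈ v.toWord.getLast?, x i = fl y) →
        (∃ y ∈ v.toWord.getLast?, x j = fl y) → i = j := by
      rintro i j ⟨y, hy, hi⟩ ⟨y', hy', hj⟩
      have : y = y' := by
        simp only [Option.mem_def] at hy hy'
        rw [hy] at hy'
        exact Option.some.inj hy'
      subst this
      exact hx (hi.trans hj.symm)
    have hu : ∀ i j, (∃ y ∈ u.toWord.head?, y = fl (x i)) →
        (∃ y ∈ u.toWord.head?, y = fl (x j)) → i = j := by
      rintro i j ⟨y, hy, hi⟩ ⟨y', hy', hj⟩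
      have : y = y' := by
        simp only [Option.mem_def] at hy hy'
        rw [hy] at hy'
        exact Option.some.inj hy'
      subst this
      exact hx (fl_inj (hi.symm.trans hj))
    rcases key 0 with a | a <;> rcases key 1 with b | b <;> rcases key 2 with c | c
    · exact absurd (hv 0 1 a b) (by decide)
    · exact absurd (hv 0 1 a b) (by decide)
    · exact absurd (hv 0 2 a c) (by decide)
    · exact absurd (hu 1 2 b c) (by decide)
    · exact absurd (hv 1 2 b c) (by decide)
    · exact absurd (hu 0 2 a c) (by decide)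
    · exact absurd (hu 0 1 a b) (by decide)
    · exact absurd (hu 0 1 a b) (by decide)
  obtain ⟨i, hi1, hi2⟩ := hbad
  refine ⟨i, ?_⟩
  have e1 : (v * U i).toWord = v.toWord ++ (U i).toWord := by
    apply cat
    intro y hy z hz
    simp only [Option.mem_def] at hz
    rw [h1 i] at hz
    rw [← Option.some.inj hz]
    exact hi1 y hy
  have e2 : (v * U i * u).toWord = (v * U i).toWord ++ u.toWord := by
    apply cat
    intro y hy z hz
    rw [e1, List.getLast?_append, h2 i] at hy
    simp only [Option.some_or, Option.mem_def, Option.some.injEq] at hy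
    subst hy
    exact hi2 z hz
  rw [e2, e1]
  exact ⟨v.toWord, u.toWord, rfl⟩

/-- embedding of words -/
def em (r : FreeGroup κ) : List (Option κ × Bool) := r.toWord.map (fun x => (some x.1, x.2))

theorem mk_em (r : FreeGroup κ) : mk (em r) = jj r := by
  unfold em jj
  conv_rhs => rw [← mk_toWord (x := r)]
  rw [FreeGroup.map.mk]

theorem red_em (r : FreeGroup κ) : IsReduced (em r) := by
  have h := isReduced_toWord (x := r)
  unfold em
  unfold FreeGroup.IsReduced at *
  rw [List.isChain_map]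
  refine h.imp ?_
  intro a b hab h
  exact hab (Option.some.inj h)

/-- words without `a⁻¹` -/
def NoA' (l : List (Option κ × Bool)) : Prop := ∀ x ∈ l, x ≠ A'

theorem noA'_em (r : FreeGroup κ) : NoA' (em r) := by
  intro x hx
  simp only [em, List.mem_map] at hx
  obtain ⟨y, _, rfl⟩ := hx
  simp [A']

theorem NoA'.app {l m : List (Option κ × Bool)} (hl : NoA' l) (hm : NoA' m) :
    NoA' (l ++ [A] ++ m) := by
  intro x hx
  simp only [List.mem_append, List.mem_singleton] at hx
  rcases hx with (hx | rfl) | hx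
  · exact hl x hx
  · exact A_ne_A'
  · exact hm x hx

theorem red_app {l m : List (Option κ × Bool)} (hl : IsReduced l) (hm : IsReduced m)
    (hl' : NoA' l) (hm' : NoA' m) : IsReduced (l ++ [A] ++ m) := by
  unfold FreeGroup.IsReduced at *
  rw [List.isChain_append, List.isChain_append]
  refine ⟨⟨hl, by simp, fun x hx y hy hxy => ?_⟩, hm, fun x hx y hy hxy => ?_⟩
  · have hy' : y = A := by simpa using hy.symm
    subst hy'
    have := hl' x (List.mem_of_getLast? hx)
    rcases x with ⟨x1, x2⟩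
    simp only [A] at hxy ⊢
    subst hxy
    cases x2
    · exact absurd rfl this
    · rfl
  · have hx' : x = A := by
      rw [List.getLast?_concat] at hx
      simpa using hx.symm
    subst hx'
    have := hm' y (List.mem_of_mem_head? hy)
    rcases y with ⟨y1, y2⟩
    simp only [A] at hxy ⊢
    subst hxy
    cases y2
    · exact absurd rfl this
    · rfl

/-- the list of letters of the word -/
def lst (r₁ r₂ r₃ : FreeGroup κ) : List (Option κ × Bool) :=
  em r₁ ++ [A] ++ (em r₂ ++ [A] ++ (em r₃ ++ [A] ++ []))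

/-- the word `r₁ a r₂ a r₃ a` -/
def Wc (r₁ r₂ r₃ : FreeGroup κ) : FreeGroup (Option κ) :=
  jj r₁ * el A * (jj r₂ * el A * (jj r₃ * el A))

theorem mk_lst (r₁ r₂ r₃ : FreeGroup κ) : mk (lst r₁ r₂ r₃) = Wc r₁ r₂ r₃ := by
  unfold lst Wc
  simp only [← mul_mk, mk_em, List.append_nil]
  rfl

theorem noA'_lst (r₁ r₂ r₃ : FreeGroup κ) : NoA' (lst r₁ r₂ r₃) :=
  (noA'_em r₁).app ((noA'_em r₂).app ((noA'_em r₃).app (by intro x hx; simp at hx)))

theorem cyc_lst (r₁ r₂ r₃ : FreeGroup κ) : IsCyclicallyReduced (lst r₁ r₂ r₃) := by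
  have h3 := red_app (red_em r₃) (m := []) (by simp [FreeGroup.IsReduced]) (noA'_em r₃)
    (by intro x hx; simp at hx)
  have n3 := (noA'_em r₃).app (m := []) (by intro x hx; simp at hx)
  have h2 := red_app (red_em r₂) h3 (noA'_em r₂) n3
  have n2 := (noA'_em r₂).app n3
  have h1 := red_app (red_em r₁) h2 (noA'_em r₁) n2
  refine ⟨h1, fun x hx y hy hxy => ?_⟩
  have hlast : (lst r₁ r₂ r₃).getLast? = some A := by
    have e : lst r₁ r₂ r₃ = (em r₁ ++ [A] ++ (em r₂ ++ [A] ++ em r₃)) ++ [A] := by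
      simp [lst]
    rw [e, List.getLast?_concat]
  rw [hlast] at hx
  have hx' : x = A := by simpa using hx.symm
  subst hx'
  have := noA'_lst r₁ r₂ r₃ y (List.mem_of_mem_head? hy)
  rcases y with ⟨y1, y2⟩
  simp only [A] at hxy ⊢
  subst hxy
  cases y2
  · exact absurd rfl this
  · rfl

theorem conj_Wc (r₁ r₂ r₃ : FreeGroup κ) : IsConj (Wc r₁ r₂ r₃) (Wc r₃ r₁ r₂) := by
  rw [isConj_iff]
  refine ⟨jj r₃ * el A, ?_⟩
  unfold Wc
  group

/-- the class of words -/
def WW (U : Fin 3 → FreeGroup κ) : Set (FreeGroup (Option κ)) :=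
  {w | ∃ u v, IsConj w (Wc (v * U 0 * u) (v * U 1 * u) (v * U 2 * u))}

theorem WW_closed (U : Fin 3 → FreeGroup κ) : ∀ w ∈ WW U, ∀ u v : FreeGroup κ,
    (mv u v).symm w ∈ WW U := by
  rintro w ⟨u, v, h⟩ u' v'
  refine ⟨u * u'⁻¹, v'⁻¹ * v, ?_⟩
  have h1 : IsConj ((mv u' v').symm w)
      ((mv u' v').symm (Wc (v * U 0 * u) (v * U 1 * u) (v * U 2 * u))) := by
    have := (mv u' v').symm.toMonoidHom.map_isConj h
    simpa using this
  refine h1.trans ?_
  have hA : (el A : FreeGroup (Option κ)) = of none := rfl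
  have h2 : (mv u' v').symm (Wc (v * U 0 * u) (v * U 1 * u) (v * U 2 * u)) =
      jj (v * U 0 * u) * (jj u'⁻¹ * el A * jj v'⁻¹) * (jj (v * U 1 * u) *
      (jj u'⁻¹ * el A * jj v'⁻¹) * (jj (v * U 2 * u) * (jj u'⁻¹ * el A * jj v'⁻¹))) := by
    rw [mv_symm_apply]
    unfold Wc
    simp only [_root_.map_mul, mvh_jj, hA, mvh_none]
  rw [h2, isConj_iff]
  refine ⟨jj v'⁻¹, ?_⟩
  unfold Wc
  simp only [_root_.map_mul, _root_.map_inv]
  group

theorem rich [Nontrivial κ] (U : Fin 3 → FreeGroup κ) (x : Fin 3 → κ × Bool)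
    (hx : Function.Injective x) (M : List (κ × Bool)) (hM : Universal2 M)
    (h1 : ∀ i, (U i).toWord.head? = some (x i)) (h2 : ∀ i, (U i).toWord.getLast? = some (x i))
    (h3 : ∀ i, M <:+: (U i).toWord) : ∀ w ∈ WW U, Rich w := by
  rintro w ⟨u, v, hconj⟩
  set r : Fin 3 → FreeGroup κ := fun i => v * U i * u with hr
  have hcj : IsConj w (mk (lst (r 0) (r 1) (r 2))) := by rw [mk_lst]; exact hconj
  have hcj' : IsConj w (mk (lst (r 2) (r 0) (r 1))) := by
    rw [mk_lst]; exact hconj.trans (conj_Wc _ _ _)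
  have hinf : ∀ i, em (r i) <:+: lst (r 0) (r 1) (r 2) := by
    intro i
    fin_cases i
    · exact ⟨[], [A] ++ (em (r 1) ++ [A] ++ (em (r 2) ++ [A] ++ [])), by simp [lst]⟩
    · exact ⟨em (r 0) ++ [A], [A] ++ (em (r 2) ++ [A] ++ []), by simp [lst]⟩
    · exact ⟨em (r 0) ++ [A] ++ (em (r 1) ++ [A]), [A], by simp [lst]⟩
  constructor
  · intro s s' hs hs' hne
    obtain ⟨i, hi⟩ := survive U x hx h1 h2 u v
    rcases s with ⟨_ | k, b⟩
    · exact absurd rfl hs
    rcases s' with ⟨_ | k', b'⟩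
    · exact absurd rfl hs'
    have hred : IsReduced [((k, !b) : κ × Bool), (k', b')] := by
      unfold FreeGroup.IsReduced
      simp only [List.isChain_cons_cons, List.isChain_singleton, and_true]
      rintro rfl
      cases b <;> cases b' <;> simp_all
    have h4 := ((hM _ _ hred).trans (h3 i)).trans hi
    obtain ⟨a1, a2, ha⟩ := h4
    have h5 : [fl (some k, b), (some k', b')] <:+: em (r i) := by
      refine ⟨a1.map (fun x => (some x.1, x.2)), a2.map (fun x => (some x.1, x.2)), ?_⟩
      unfold em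
      rw [hr]
      simp only
      rw [← ha]
      simp [fl]
    exact ⟨_, cyc_lst _ _ _, hcj, h5.trans (hinf i)⟩
  · -- two consecutive nontrivial syllables
    have hdist : ∀ i j, r i = 1 → r j = 1 → i = j := by
      intro i j hi hj
      have h4 : U i = U j := by
        have h5 : v * U i * u = v * U j * u := by
          have : r i = r j := by rw [hi, hj]
          exact this
        exact mul_left_cancel (mul_right_cancel h5)
      have h6 := h1 i
      rw [h4, h1 j] at h6
      exact (hx (Option.some.inj h6)).symm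
    have key : ∀ g g' : FreeGroup κ, g ≠ 1 → g' ≠ 1 → ∃ s s' : Option κ × Bool, isL s ∧ isL s' ∧
        [fl s, A, s'] <:+: em g ++ [A] ++ em g' := by
      intro g g' hg hg'
      rcases List.eq_nil_or_concat g.toWord with h | ⟨l, z, hl⟩
      · exact absurd (toWord_eq_nil_iff.mp h) hg
      rcases hh : g'.toWord with _ | ⟨z', l'⟩
      · exact absurd (toWord_eq_nil_iff.mp hh) hg'
      refine ⟨fl (some z.1, z.2), (some z'.1, z'.2), by simp [isL, fl], by simp [isL], ?_⟩
      refine ⟨l.map (fun x => (some x.1, x.2)), l'.map (fun x => (some x.1, x.2)), ?_⟩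
      unfold em
      rw [hl, hh, fl_fl]
      simp
    by_cases h10 : r 1 = 1
    · have a0 : r 0 ≠ 1 := fun h => absurd (hdist 0 1 h h10) (by decide)
      have a2 : r 2 ≠ 1 := fun h => absurd (hdist 2 1 h h10) (by decide)
      obtain ⟨s, s', hs, hs', hin⟩ := key (r 2) (r 0) a2 a0
      refine ⟨s, s', hs, hs', _, cyc_lst _ _ _, hcj', hin.trans ?_⟩
      exact ⟨[], [A] ++ (em (r 1) ++ [A] ++ []), by simp [lst]⟩
    · by_cases h00 : r 0 = 1
      · have a2 : r 2 ≠ 1 := fun h => absurd (hdist 2 0 h h00) (by decide)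
        obtain ⟨s, s', hs, hs', hin⟩ := key (r 1) (r 2) h10 a2
        refine ⟨s, s', hs, hs', _, cyc_lst _ _ _, hcj, hin.trans ?_⟩
        exact ⟨em (r 0) ++ [A], [A], by simp [lst]⟩
      · obtain ⟨s, s', hs, hs', hin⟩ := key (r 0) (r 1) h00 h10
        refine ⟨s, s', hs, hs', _, cyc_lst _ _ _, hcj, hin.trans ?_⟩
        exact ⟨[], [A] ++ (em (r 2) ++ [A] ++ []), by simp [lst]⟩

end

section
variable {ι : Type*} [DecidableEq ι]

theorem AI_Hs [Finite ι] (s : ι × Bool) : AI (Hs (1 : FreeGroup ι) s) := by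
  intro x
  refine (finite_ball (x.toWord.length)).subset ?_
  intro z hz
  simp only [Set.mem_ofPred_eq] at hz ⊢
  by_contra hlen
  push Not at hlen
  apply hz
  rw [mem_Hs, mem_Hs, inv_one, one_mul, one_mul]
  unfold hd
  rw [head_mul z x hlen]

theorem neg_eq_zero {i : ι} {g : FreeGroup ι} (h : (i, false) ∉ g.toWord) : neg i g = 0 := by
  unfold neg
  exact List.count_eq_zero_of_not_mem h

/-- positive words -/
def IsPos (w : FreeGroup ι) : Prop := ∀ x ∈ w.toWord, x.2 = true

theorem posi_Hs {v : FreeGroup ι} (hv : IsPos v) (i : ι) : Posi v (Hs 1 (i, true)) := by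
  rintro c hc ⟨h1, h2⟩
  obtain ⟨n, hn1, hn2⟩ := (h1.and h2).exists
  rw [mem_Hs, inv_one, one_mul] at hn1 hn2
  rw [isConj_iff] at hc
  obtain ⟨k, rfl⟩ := hc
  refine no_conj i k (v ^ n) ((k * v * k⁻¹) ^ n) ?_ conj_pow ?_ hn2
  · have h3 := neg_pow_le i v n
    have h4 : neg i v = 0 := by
      unfold neg
      apply List.count_eq_zero_of_not_mem
      intro h
      have := hv _ h
      simp at this
    rw [h4] at h3
    omega
  · rw [← inv_pow]
    exact hn1

end

section
variable {κ : Type} [DecidableEq κ] [Fintype κ]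

theorem adm_Hs {v : FreeGroup (Option κ)} (hv : IsPos v) (i : Option κ) :
    Adm v (Hs 1 (i, true)) where
  ai := AI_Hs _
  nested := nested_Hs _
  inf := Hs_infinite _ _
  coinf := by
    refine (Hs_infinite (1 : FreeGroup (Option κ)) (i, false)).mono ?_
    intro z hz hz'
    rw [mem_Hs] at hz hz'
    rw [hz] at hz'
    simp at hz'
  posi := posi_Hs hv i

/-- Rich words are not potentially positive. -/
theorem not_potpos [Nonempty κ] (𝒲 : Set (FreeGroup (Option κ))) (hrich : ∀ w ∈ 𝒲, Rich w)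
    (hcl : ∀ w ∈ 𝒲, ∀ u v : FreeGroup κ, (mv u v).symm w ∈ 𝒲) (w : FreeGroup (Option κ))
    (hw : w ∈ 𝒲) (φ : FreeGroup (Option κ) ≃* FreeGroup (Option κ)) (hpos : IsPos (φ w)) :
    False := by
  have key : ∀ i : Option κ, ∃ q, ((φ ⁻¹' (Hs 1 (i, true))) \ Hs q A).Finite ∧
      (Hs q A \ (φ ⁻¹' (Hs 1 (i, true)))).Finite := by
    intro i
    have h1 := (adm_Hs hpos i).pre φ
    rw [φ.symm_apply_apply] at h1
    exact main 𝒲 hrich hcl _ _ w hw h1 le_rfl
  obtain ⟨k0⟩ := ‹Nonempty κ›
  obtain ⟨q1, a1, a2⟩ := key none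
  obtain ⟨q2, b1, b2⟩ := key (some k0)
  set B1 : Set (FreeGroup (Option κ)) := φ ⁻¹' (Hs 1 (none, true)) with hB1
  set B2 : Set (FreeGroup (Option κ)) := φ ⁻¹' (Hs 1 (some k0, true)) with hB2
  set h := q2 * q1⁻¹ with hh
  have hq : h * q1 = q2 := by rw [hh]; group
  have c1 : (tr h B1 \ B2).Finite := by
    have h1 := (tr_fin h).mpr a1
    rw [tr_diff, tr_Hs, hq] at h1
    refine (h1.union b2).subset ?_
    rintro z ⟨hz1, hz2⟩
    by_cases hz : z ∈ Hs q2 A
    · exact Or.inr ⟨hz, hz2⟩
    · exact Or.inl ⟨hz1, hz⟩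
  have c2 : (B2 \ tr h B1).Finite := by
    have h1 := (tr_fin h).mpr a2
    rw [tr_diff, tr_Hs, hq] at h1
    refine (h1.union b1).subset ?_
    rintro z ⟨hz1, hz2⟩
    by_cases hz : z ∈ Hs q2 A
    · exact Or.inl ⟨hz, hz2⟩
    · exact Or.inr ⟨hz1, hz⟩
  -- the element
  set x : FreeGroup (Option κ) := mk [(none, true)] with hx
  set c := φ.symm (φ h * x * (φ h)⁻¹) with hc
  have hφc : φ c = φ h * x * (φ h)⁻¹ := by rw [hc, φ.apply_symm_apply]
  have hcyc : IsCyclicallyReduced [((none : Option κ), true)] := by simp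
  have hcyc' : IsCyclicallyReduced [((none : Option κ), false)] := by simp
  have hφc' : φ c⁻¹ = φ h * mk [(none, false)] * (φ h)⁻¹ := by
    rw [_root_.map_inv, hφc]
    have : (mk [((none : Option κ), false)] : FreeGroup (Option κ)) = x⁻¹ := by
      rw [hx, inv_mk]; rfl
    rw [this]
    group
  have hcne : c ≠ 1 := by
    intro h1
    have h2 := ne_one_of_cyc hcyc (φ h)
    rw [← hx, ← hφc, h1, _root_.map_one] at h2
    exact h2 rfl
  have hcne' : c⁻¹ ≠ 1 := by simpa using hcne
  have d1 : ∀ᶠ n : ℕ in atTop, c ^ n ∈ tr h B1 := by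
    filter_upwards [line (none, true) [] hcyc (φ h)] with n hn
    show φ (h⁻¹ * c ^ n) ∈ Hs 1 (none, true)
    rw [_root_.map_mul, _root_.map_inv, _root_.map_pow, hφc, ← mem_Hs_mul, mul_one]
    exact hn
  have d2 : ∀ᶠ n : ℕ in atTop, c⁻¹ ^ n ∈ (tr h B1)ᶜ := by
    filter_upwards [line (none, false) [] hcyc' (φ h)] with n hn
    show ¬ (φ (h⁻¹ * c⁻¹ ^ n) ∈ Hs 1 (none, true))
    rw [_root_.map_mul, _root_.map_inv, _root_.map_pow, hφc', ← mem_Hs_mul, mul_one]
    intro h'
    rw [mem_Hs] at hn h'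
    rw [hn] at h'
    simp at h'
  have e1 := eventually_in hcne c1 d1
  have e2 : ∀ᶠ n : ℕ in atTop, c⁻¹ ^ n ∈ B2ᶜ := by
    refine eventually_in hcne' (S := (tr h B1)ᶜ) ?_ d2
    rw [Set.sdiff_compl]
    refine c2.subset ?_
    rintro z ⟨hz1, hz2⟩
    exact ⟨hz2, hz1⟩
  obtain ⟨n, hn1, hn2⟩ := (e1.and e2).exists
  have f1 : (φ (c ^ n)).toWord.head? = some (some k0, true) := by
    have : φ (c ^ n) ∈ Hs 1 (some k0, true) := hn1
    rw [mem_Hs, inv_one, one_mul] at this
    exact this
  have f2 : (φ (c⁻¹ ^ n)).toWord.head? ≠ some (some k0, true) := by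
    intro h'
    apply hn2
    show φ (c⁻¹ ^ n) ∈ Hs 1 (some k0, true)
    rw [mem_Hs, inv_one, one_mul]
    exact h'
  refine no_conj (some k0) (φ h) (x⁻¹ ^ n) (φ (c⁻¹ ^ n)) ?_ ?_ ?_ f2
  · have h1 := neg_pow_le (some k0) x⁻¹ n
    have hm : ((some k0, false) : Option κ × Bool) ∉ x⁻¹.toWord := by
      rw [hx, inv_mk, toWord_mk]
      simp [invRev]
    have h2 : neg (some k0) x⁻¹ = 0 := neg_eq_zero hm
    rw [h2] at h1
    omega
  · rw [_root_.map_pow, _root_.map_inv, hφc, mul_inv_rev, mul_inv_rev, inv_inv, ← mul_assoc,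
      conj_pow]
  · rw [← _root_.map_inv, inv_pow, inv_inv]
    exact f1

end

end Pool.Agent.V1119.PP
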